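import Pool.Agent.H773.LK.Spec2

/-!
# Absolute continuity for leaky periodic curves (MP_daec8e_mp): specification, part 3
(project LK, owner helper773): real space, the Floquet transformation, the main theorem

The definitions `Pl`, `HS`, `Sc`, `pd`, `gradForm`, `traceForm`, `form`, `cls`, `formRel`, `PerCurve`,
`IsSM` are due to helper797.
-/

set_option autoImplicit false

noncomputable section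

namespace Pool.Agent.H773.LK

open MeasureTheory Filter Topology Set
open scoped ENNReal NNReal ComplexConjugate InnerProductSpace SchwartzMap FourierTransform

/-! ## 11. The leaky curve Hamiltonian -/

/-- the plane -/
abbrev Pl : Type := EuclideanSpace ℝ (Fin 2)

/-- `L²(ℝ²)` -/
abbrev HS : Type := Lp ℂ 2 (volume : Measure Pl)

/-- Schwartz functions on the plane -/
abbrev Sc : Type := 𝓢(Pl, ℂ)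

/-- the `i`-th partial derivative -/
def pd (i : Fin 2) (ψ : Sc) (x : Pl) : ℂ := fderiv ℝ ψ x (EuclideanSpace.single i 1)

/-- `∫ ⟨∇v, ∇ψ⟩` -/
def gradForm (v ψ : Sc) : ℂ := ∫ x, ∑ i : Fin 2, (starRingEnd ℂ) (pd i v x) * pd i ψ x

/-- `∫ conj (v (γ s)) ψ (γ s) ds` -/
def traceForm (γ : ℝ → Pl) (v ψ : Sc) : ℂ := ∫ s, (starRingEnd ℂ) (v (γ s)) * ψ (γ s)

/-- the form of `-Δ - α δ(x - Γ)` -/
def form (α : ℝ) (γ : ℝ → Pl) (v ψ : Sc) : ℂ := gradForm v ψ - α * traceForm γ v ψ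

/-- the class in `L²` of a Schwartz function -/
def cls (ψ : Sc) : HS := ψ.toLp 2

/-- `u` is in the domain of the operator associated with the closure of the form and is mapped to
`g`. -/
def formRel (α : ℝ) (γ : ℝ → Pl) (u g : HS) : Prop :=
  ∃ ψ : ℕ → Sc, Tendsto (fun n => cls (ψ n)) atTop (𝓝 u) ∧
    (∀ ε : ℝ, 0 < ε → ∃ N, ∀ m ≥ N, ∀ n ≥ N, ‖gradForm (ψ m - ψ n) (ψ m - ψ n)‖ < ε) ∧
    ∀ v : Sc, Tendsto (fun n => form α γ v (ψ n)) atTop (𝓝 ⟪cls v, g⟫_ℂ)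

/-- `γ` is the arc length parametrisation of a periodic curve. -/
structure PerCurve (γ : ℝ → Pl) : Prop where
  inj : Function.Injective γ
  smooth : ContDiff ℝ 1 γ
  unit : ∀ s, ‖deriv γ s‖ = 1
  per : ∃ (L : ℝ) (l : Pl), 0 < L ∧ l ≠ 0 ∧ ∀ s, γ (s + L) = γ s + l

/-- `μ` is the spectral measure of `f` with respect to the operator `H`: the function
`z ↦ ⟨f, (H - z)⁻¹ f⟩` is the Stieltjes transform of `μ`. -/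
def IsSM {E : Type*} [NormedAddCommGroup E] [InnerProductSpace ℂ E] (H : E →ₗ.[ℂ] E) (f : E)
    (μ : Measure ℝ) : Prop :=
  IsFiniteMeasure μ ∧ ∀ z : ℂ, z.im ≠ 0 → ∃ u : H.domain, H u - z • (u : E) = f ∧
    ⟪f, (u : E)⟫_ℂ = ∫ t : ℝ, ((t : ℂ) - z)⁻¹ ∂μ

/-- the main theorem -/
def S_MAIN : Prop := ∀ (α : ℝ), 0 < α → ∀ (γ : ℝ → Pl), PerCurve γ →
  (∃ C : ℝ, ∀ ψ : Sc, α * (traceForm γ ψ ψ).re ≤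
    1 / 2 * (gradForm ψ ψ).re + C * ‖cls ψ‖ ^ 2) ∧
  ∃ H : HS →ₗ.[ℂ] HS, (∀ u g : HS, (u, g) ∈ H.graph ↔ formRel α γ u g) ∧
    Dense (H.domain : Set HS) ∧ IsSelfAdjoint H ∧ (∀ f : HS, ∃ μ : Measure ℝ, IsSM H f μ) ∧
    ∀ (f : HS) (μ : Measure ℝ), IsSM H f μ → μ ≪ volume

/-! ## 12. Coordinates -/

/-- coordinates adapted to a periodic curve: `a` is the length of the period vector, `e₁` its
direction -/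
structure Coo (γ : ℝ → Pl) (a L : ℝ) (e₁ e₂ : Pl) (X y : ℝ → ℝ) : Prop where
  a_pos : 0 < a
  crv : Crv L (2 * Real.pi / a) X y
  norm1 : ‖e₁‖ = 1
  norm2 : ‖e₂‖ = 1
  orth : ⟪e₁, e₂⟫_ℝ = 0
  eq : ∀ s, γ s = (a * X s / (2 * Real.pi)) • e₁ + y s • e₂

/-- **CRV.** Proof. `a = ‖ℓ‖`, `e₁ = ℓ/‖ℓ‖`, `e₂ = (-e₁ 1, e₁ 0)`, `X s = 2π ⟨e₁, γ s⟩ / a`,
`y s = ⟨e₂, γ s⟩`. For `arc` it is enough that `‖γ s - γ t‖ ≥ c |s - t|`: `γ'` is continuous and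
periodic, so uniformly continuous, which gives `δ > 0` with `‖γ s - γ t‖ ≥ |s - t|/2` for `|s-t| ≤ δ`
(`‖γ s - γ t - (s-t) γ'(t)‖ ≤ |s-t|/2`). For large `|s - t|`, `‖γ s - γ t‖ ≥ ‖ℓ‖|s-t|/L - C` (write
`s = s₀ + nL`, `t = t₀ + mL`, `s₀, t₀ ∈ [0,L)`). For `δ ≤ |s - t| ≤ R` one may take `t ∈ [0,L]` by periodicity, and
the continuous function `‖γ s - γ t‖` is bounded below on this compact set because `γ` is injective. -/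
def S_CRV : Prop := ∀ γ : ℝ → Pl, PerCurve γ →
  ∃ (a L : ℝ) (e₁ e₂ : Pl) (X y : ℝ → ℝ), Coo γ a L e₁ e₂ X y

/-- the point `((m + θ)/a) e₁ + η e₂` of the frequency plane -/
def Pt (a : ℝ) (e₁ e₂ : Pl) (θ : ℝ) (ξ : ℤ × ℝ) : Pl := (((ξ.1 : ℝ) + θ) / a) • e₁ + ξ.2 • e₂

/-- **PTM.** Proof. `(x₁, x₂) ↦ x₁ e₁ + x₂ e₂` is a linear isometry `ℝ² → ℝ²` and preserves the Lebesgue
measure; `(θ, m) ↦ (m + θ)/a` maps `m01 × count` to `a` times Lebesgue measure. -/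
def S_PTM : Prop := ∀ (a : ℝ) (e₁ e₂ : Pl), 0 < a → ‖e₁‖ = 1 → ‖e₂‖ = 1 → ⟪e₁, e₂⟫_ℝ = 0 →
  Measurable (fun p : ℝ × (ℤ × ℝ) => Pt a e₁ e₂ p.1 p.2) ∧
  Measure.map (fun p : ℝ × (ℤ × ℝ) => Pt a e₁ e₂ p.1 p.2) (m01.prod mZR) =
    ENNReal.ofReal a • (volume : Measure Pl) ∧
  (∃ g : Pl → ℝ × (ℤ × ℝ), Measurable g ∧
    (∀ᵐ x : Pl, Pt a e₁ e₂ (g x).1 (g x).2 = x) ∧
    (∀ᵐ p : ℝ × (ℤ × ℝ) ∂(m01.prod mZR), g (Pt a e₁ e₂ p.1 p.2) = p))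

/-! ## 13. The Floquet transformation -/

/-- **CUR.** Currying. Proof. For `f ∈ L²` of the product, a.e. slice is in `L²(ℤ×ℝ)`; the map
`F : θ ↦ [f(θ,·)]` is measurable because `FF` is separable and `θ ↦ ‖F θ - c‖²= ∫ |f(θ,ξ) - c(ξ)|²` is
measurable for every `c`; `‖F‖ = ‖f‖` (Tonelli). Surjective: the range is closed and contains
`θ ↦ 1_A(θ) c` (the image of `(θ,ξ) ↦ 1_A(θ) c(ξ)`), and these are total in `DI FF`. -/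
def S_CUR : Prop := ∃ J : Lp ℂ 2 (m01.prod mZR) ≃ₗᵢ[ℂ] DI FF, ∀ f : Lp ℂ 2 (m01.prod mZR),
  ∀ᵐ θ ∂m01, (J f θ : ℤ × ℝ → ℂ) =ᵐ[mZR] fun ξ => f (θ, ξ)

/-- `K` is the change of variables in the frequency plane -/
def IsK (a : ℝ) (e₁ e₂ : Pl) (K : HS ≃ₗᵢ[ℂ] DI FF) : Prop :=
  ∀ F : HS, ∀ᵐ θ ∂m01, (K F θ : ℤ × ℝ → ℂ) =ᵐ[mZR] fun ξ =>
    (((√a)⁻¹ : ℝ) : ℂ) * F (Pt a e₁ e₂ θ ξ)

/-- **KUN.** From PTM and CUR: `F ↦ a^{-1/2} F ∘ Pt` is unitary from `HS` to `L²(m01 × mZR)`. -/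
def S_KUN : Prop := ∀ (a : ℝ) (e₁ e₂ : Pl), 0 < a → ‖e₁‖ = 1 → ‖e₂‖ = 1 → ⟪e₁, e₂⟫_ℝ = 0 →
  ∃ K : HS ≃ₗᵢ[ℂ] DI FF, IsK a e₁ e₂ K

/-- `v φ` is `(w + M)^{1/2}` applied to the Floquet transform of `φ` -/
def IsV (a M : ℝ) (e₁ e₂ : Pl) (v : Sc →ₗ[ℂ] DI FF) : Prop :=
  ∀ φ : Sc, ∀ᵐ θ ∂m01, (v φ θ : ℤ × ℝ → ℂ) =ᵐ[mZR] fun ξ =>
    ((√(ww (2 * Real.pi / a) θ ξ + M) : ℝ) : ℂ) * ((((√a)⁻¹ : ℝ) : ℂ) * 𝓕 φ (Pt a e₁ e₂ θ ξ))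

/-- **VPH.** Proof. `v φ = K (√(4π²|x|²+M) 𝓕φ)`; `ww (2π/a) θ ξ = 4π²‖Pt a e₁ e₂ θ ξ‖²`. The form: `K` is
unitary, Plancherel, `𝓕(∂_i φ)(x) = 2πi x_i 𝓕φ(x)`. Density: `𝓕` is onto `Sc`; if `h ∈ HS` is orthogonal to all
`√(4π²|x|²+M) ψ`, `ψ` smooth with compact support, then `h = 0` a.e.
(`ae_eq_zero_of_integral_contDiff_smul_eq_zero`). -/
def S_VPH : Prop := ∀ (a M : ℝ) (e₁ e₂ : Pl), 0 < a → 0 < M → ‖e₁‖ = 1 → ‖e₂‖ = 1 →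
  ⟪e₁, e₂⟫_ℝ = 0 → ∀ K : HS ≃ₗᵢ[ℂ] DI FF, IsK a e₁ e₂ K →
  ∃ v : Sc →ₗ[ℂ] DI FF, IsV a M e₁ e₂ v ∧ DenseRange v ∧
    (∀ φ ψ : Sc, ⟪v φ, v ψ⟫_ℂ = gradForm φ ψ + M * ⟪cls φ, cls ψ⟫_ℂ) ∧
    (∀ (D : ℝ → FF →L[ℂ] FF) (DD : DI FF →L[ℂ] DI FF),
      (∀ θ, IsD (2 * Real.pi / a) M θ (D θ)) → IsDI D DD →
      ∀ φ : Sc, DD (v φ) = K (𝓕 (cls φ)))

/-! ## 14. The trace -/

/-- **YAD.** The adjoint of `Y^*`. Proof. For `e ∈ EL L`: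
`⟨e, Y v⟩ = ⟨Y^* e, v⟩ = ∫ conj (ê(ξ)) h(ξ) dξ = ∫_0^L conj (e s) (∫ e^{i(mX s + 2πη y s)} h(ξ) dξ) ds`
(Fubini: `|e s| |h ξ|` is integrable on the product). -/
def S_YAD : Prop := ∀ (L β : ℝ) (X y : ℝ → ℝ), Crv L β X y → ∀ (M θ : ℝ) (Ys : EL L →L[ℂ] FF),
  0 < M → IsYs L β X y M θ Ys → ∀ (v : FF) (h : ℤ × ℝ → ℂ), Integrable h mZR →
  ((v : ℤ × ℝ → ℂ) =ᵐ[mZR] fun ξ => ((√(ww β θ ξ + M) : ℝ) : ℂ) * h ξ) →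
  (Ys.adjoint v : ℝ → ℂ) =ᵐ[volume.restrict (Ioc (0 : ℝ) L)] fun s => ∫ ξ,
    Complex.exp (Complex.I * (((ξ.1 : ℝ) * X s + 2 * Real.pi * ξ.2 * y s : ℝ) : ℂ)) * h ξ ∂mZR

/-- the fibre values on the curve -/
def Zk (a : ℝ) (e₁ e₂ : Pl) (X y : ℝ → ℝ) (φ : Sc) (θ s : ℝ) : ℂ :=
  ∫ ξ, Complex.exp (Complex.I * (((ξ.1 : ℝ) * X s + 2 * Real.pi * ξ.2 * y s : ℝ) : ℂ)) *
    𝓕 φ (Pt a e₁ e₂ θ ξ) ∂mZR

/-- **ZAK.** Proof. (1) `𝓕φ` is Schwartz, so `|𝓕φ(x)| ≤ C (1+|x|²)^{-2}`: integrability and dominated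
convergence. (2) Fourier inversion `φ(x) = ∫ e^{2πi⟨x,ζ⟩} 𝓕φ(ζ) dζ`, `x = γ (s + nL)`
(`= γ s + n a e₁`), and the change of variables PTM; `⟨x, Pt θ ξ⟩ = (m+θ)(X s + 2πn)/(2π) + η y s`.
(3) `n ↦ φ(γ(s+nL))` are the Fourier coefficients of the continuous bounded function
`θ ↦ a⁻¹ e^{iθ X s} Zk φ θ s` on `(0,1)`: Parseval (`fourierBasis`, polarised). (4) integrate over
`s ∈ (0, L]`; `∑_n ∫_0^L f(s+nL) ds = ∫ f` with `f = conj(φ∘γ) ψ∘γ` integrable on `ℝ`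
(`‖γ s‖ ≥ c|s| - C`, or: `∑_n ∫_0^L |φ(γ(s+nL))|² ds < ∞` by Parseval). -/
def S_ZAK : Prop := ∀ (γ : ℝ → Pl) (a L : ℝ) (e₁ e₂ : Pl) (X y : ℝ → ℝ), Coo γ a L e₁ e₂ X y →
  (∀ (φ : Sc), (∀ θ ∈ Ioo (0 : ℝ) 1, Integrable (fun ξ => 𝓕 φ (Pt a e₁ e₂ θ ξ)) mZR) ∧
    (∃ C : ℝ, ∀ θ ∈ Ioo (0 : ℝ) 1, ∀ s, ‖Zk a e₁ e₂ X y φ θ s‖ ≤ C) ∧
    ContinuousOn (Function.uncurry (Zk a e₁ e₂ X y φ)) (Ioo 0 1 ×ˢ univ)) ∧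
  ∀ (φ ψ : Sc), (a : ℂ) ^ 2 * traceForm γ φ ψ =
    ∫ θ in Ioo (0 : ℝ) 1, ∫ s in Ioc (0 : ℝ) L,
      conj (Zk a e₁ e₂ X y φ θ s) * Zk a e₁ e₂ X y ψ θ s

/-- **TRI.** The trace identity. From YAD (with `h = a^{-1/2} 𝓕φ ∘ Pt`), ZAK and `L2.inner_def`
twice. -/
def S_TRI : Prop := ∀ (γ : ℝ → Pl) (a L M : ℝ) (e₁ e₂ : Pl) (X y : ℝ → ℝ),
  Coo γ a L e₁ e₂ X y → 0 < M → ∀ (Ys : ℝ → EL L →L[ℂ] FF),
  (∀ θ : ℝ, 0 < θ → θ < 1 → IsYs L (2 * Real.pi / a) X y M θ (Ys θ)) →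
  ∀ (YY : DI FF →L[ℂ] DI (EL L)), IsDI (fun θ => (Ys θ).adjoint) YY →
  ∀ (v : Sc →ₗ[ℂ] DI FF), IsV a M e₁ e₂ v →
  ∀ φ ψ : Sc, ⟪YY (v φ), YY (v ψ)⟫_ℂ = (a : ℂ) * traceForm γ φ ψ

/-! ## 15. Hilbert space lemmas -/

/-- **LNK.** The abstract link between the form and the operator `D (1 - b Y*Y)⁻¹ D` (`YY = Y`).
Proof. (⟹) `‖v ψ‖² = gf ψ ψ + M ‖c ψ‖²`, so `v (ψ n)` is a Cauchy sequence, with limit `w`, and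
`D w = lim D (v (ψ n)) = lim U (c (ψ n)) = U u`. For all `φ`:
`⟨v φ, w⟩ - M ⟨c φ, u⟩ - b ⟨Y v φ, Y w⟩ = ⟨c φ, g⟩`, that is
`⟨v φ, (1 - b Y*Y) w⟩ = ⟨c φ, g + M u⟩ = ⟨D v φ, U (g + M u)⟩ = ⟨v φ, D U (g + M u)⟩`. By density
`(1 - b Y*Y) w = D U (g + M u)`. (⟸) `w = Vi D U (g + M u)`, take `v (ψ n) → w`. -/
def S_LNK : Prop := ∀ (V H K E : Type) [AddCommGroup V] [Module ℂ V]
  [NormedAddCommGroup H] [InnerProductSpace ℂ H] [CompleteSpace H]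
  [NormedAddCommGroup K] [InnerProductSpace ℂ K] [CompleteSpace K]
  [NormedAddCommGroup E] [InnerProductSpace ℂ E] [CompleteSpace E]
  (c : V →ₗ[ℂ] H) (v : V →ₗ[ℂ] K) (U : H ≃ₗᵢ[ℂ] K) (D Vi : K →L[ℂ] K) (Y : K →L[ℂ] E)
  (gf tf : V → V → ℂ) (α b M : ℝ), 0 < M → DenseRange v → IsSelfAdjoint D →
  (∀ φ, D (v φ) = U (c φ)) → (∀ φ ψ, ⟪v φ, v ψ⟫_ℂ = gf φ ψ + M * ⟪c φ, c ψ⟫_ℂ) →
  (∀ φ ψ, (b : ℂ) * ⟪Y (v φ), Y (v ψ)⟫_ℂ = α * tf φ ψ) →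
  Vi * (1 - (b : ℂ) • (Y.adjoint ∘L Y)) = 1 → (1 - (b : ℂ) • (Y.adjoint ∘L Y)) * Vi = 1 →
  ∀ u g : H, (∃ ψ : ℕ → V, Tendsto (fun n => c (ψ n)) atTop (𝓝 u) ∧
    (∀ ε : ℝ, 0 < ε → ∃ N, ∀ m ≥ N, ∀ n ≥ N, ‖gf (ψ m - ψ n) (ψ m - ψ n)‖ < ε) ∧
    ∀ φ : V, Tendsto (fun n => gf φ (ψ n) - α * tf φ (ψ n)) atTop (𝓝 ⟪c φ, g⟫_ℂ)) ↔
  U u = D (Vi (D (U (g + (M : ℂ) • u))))

/-- **SAB.** Proof. `A = B⁻¹ - c`. The domain is the range of `B`, dense since its orthogonal complement is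
the kernel of `B`. Symmetric: for `B x = u`, `B x' = u'`: `⟨x - c u, u'⟩ = ⟨u, x' - c u'⟩`. If `w` is in the
domain of the adjoint with `⟨A u, w⟩ = ⟨u, w'⟩` for all `u = B x`, then `⟨x, w⟩ = ⟨B x, w' + c w⟩ = ⟨x, B(w' + c w)⟩`, so
`w = B (w' + c w)`. -/
def S_SAB : Prop := ∀ (H : Type) [NormedAddCommGroup H] [InnerProductSpace ℂ H] [CompleteSpace H]
  (B : H →L[ℂ] H), IsSelfAdjoint B → Function.Injective B → ∀ (c : ℝ) (R : H → H → Prop),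
  (∀ u g : H, R u g ↔ B (g + (c : ℂ) • u) = u) →
  ∃ A : H →ₗ.[ℂ] H, (∀ u g : H, (u, g) ∈ A.graph ↔ R u g) ∧ Dense (A.domain : Set H) ∧
    IsSelfAdjoint A

/-- **SMX.** Spectral measures of `A = B⁻¹ - c`. Proof. `ν (-∞, 0) = 0` because `B ≥ 0`
(`spectrum ⊆ [0,∞)`: `cfc f B = 0` for `f` vanishing on `[0,∞)`), `ν {0} = 0` because `B` is injective
(`‖cfc f_n B v - P v‖ → 0`, `f_n(t) = max 0 (1 - n|t|)`: `B cfc f_n B → 0`, and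
`ν {0} = lim ⟨f, cfc f_n B f⟩`, weak limit points `w` of `cfc f_n B f` satisfy `B w = 0`).
If `B (f + z u + c u) = u`, `Im z ≠ 0`, then with `ζ = 1/(z + c)`: `(B - ζ) u = -ζ B f`; so
`⟨f, u⟩ = -ζ ∫ t/(t - ζ) dν = ∫ 1/(1/t - c - z) dν` over `t > 0`. Use RES or
`Pool.Graph.R_seed8.TH369.AN.SB`; or: `cfc` of `t/(1 - (z+c)t)`. -/
def S_SMX : Prop := ∀ (H : Type) [NormedAddCommGroup H] [InnerProductSpace ℂ H] [CompleteSpace H]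
  (B : H →L[ℂ] H), IsSelfAdjoint B → Function.Injective B → (∀ f, 0 ≤ (⟪B f, f⟫_ℂ).re) →
  ∀ (c : ℝ) (f : H) (ν : Measure ℝ), SpM B f ν → ν (Iic 0) = 0 ∧
    ∀ z : ℂ, z.im ≠ 0 → ∃ u : H, B (f + z • u + (c : ℂ) • u) = u ∧
      (∀ u' : H, B (f + z • u' + (c : ℂ) • u') = u' → u' = u) ∧
      ⟪f, u⟫_ℂ = ∫ t : ℝ, ((t : ℂ) - z)⁻¹ ∂(ν.map fun t => 1 / t - c)

/-- **SPX.** Existence of spectral measures (`Pool.Agent.H792R3.exists_specMeas` in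
`Pool.Graph.R_seed8.H792R3.SpecMeas`). -/
def S_SPX : Prop := ∀ (H : Type) [NormedAddCommGroup H] [InnerProductSpace ℂ H] [CompleteSpace H]
  (B : H →L[ℂ] H), IsSelfAdjoint B → ∀ f : H, ∃ ν : Measure ℝ, SpM B f ν

/-- **STU.** Uniqueness of the Stieltjes transform. Proof. For `φ` continuous with compact support,
`∫ φ dμ = lim_{ε→0} π⁻¹ ∫ φ(x) Im ∫ (t - x - iε)⁻¹ dμ(t) dx` (Poisson kernel, Fubini); or: the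
functions `t ↦ (t - z)⁻¹` span a dense subalgebra of `C₀(ℝ)` (Stone-Weierstrass); or: Fourier transforms: for `ε > 0`
fixed `x ↦ ∫ ε/((t-x)²+ε²) dμ(t)` determines `μ * Poisson`, with characteristic function `e^{-ε|ξ|} charFun μ`. -/
def S_STU : Prop := ∀ (μ ν : Measure ℝ) [IsFiniteMeasure μ] [IsFiniteMeasure ν],
  (∀ z : ℂ, z.im ≠ 0 → ∫ t : ℝ, ((t : ℂ) - z)⁻¹ ∂μ = ∫ t : ℝ, ((t : ℂ) - z)⁻¹ ∂ν) → μ = ν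

end Pool.Agent.H773.LK
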