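import Mathlib

/-!
# Absolute continuity for leaky periodic curves (MP_daec8e_mp): specification, part 1
(project LK, owner helper773)

`H = -Δ - α δ(x - Γ)` on `ℝ²`, `Γ` a `C¹` curve with `γ (s + L) = γ s + ℓ`. Floquet parameter
`θ ∈ (0,1)`, modes `m ∈ ℤ`, `β = 2π/|ℓ|`, `X = β ⟨ℓ/|ℓ|, γ⟩`, `y = ⟨ℓ^⊥/|ℓ|, γ⟩`. The fibre of the
operator `1 - α G(z)` on the curve is `1 - a K(θ,z)`, `a = α/|ℓ|`, with the kernel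
`K(θ,z)(s,t) = ∑_m e^{im(X s - X t)} e^{-κ_m |y s - y t|} / (2 κ_m)`, `κ_m² = β²(m+θ)² - z`.

Every task is a `Prop` `S_...`; the paper proof is in its doc string.
-/

set_option autoImplicit false

noncomputable section

namespace Pool.Agent.H773.LK

open MeasureTheory Filter Topology Set
open scoped ENNReal NNReal ComplexConjugate InnerProductSpace

/-! ## 1. The curve -/

/-- `L²(0,L)` -/
abbrev EL (L : ℝ) : Type := Lp ℂ 2 (volume.restrict (Ioc (0 : ℝ) L))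

/-- rescaled coordinates of a periodic curve; `arc` is the chord-arc condition -/
structure Crv (L β : ℝ) (X y : ℝ → ℝ) : Prop where
  L_pos : 0 < L
  β_pos : 0 < β
  X_cont : Continuous X
  y_cont : Continuous y
  X_per : ∀ s, X (s + L) = X s + 2 * Real.pi
  y_per : ∀ s, y (s + L) = y s
  arc : ∃ c : ℝ, 0 < c ∧ ∀ s t, c * |s - t| ≤ |X s - X t| + |y s - y t|

/-- `q = e^{i(X s - X t) - β|y s - y t|}` -/
def qq (β : ℝ) (X y : ℝ → ℝ) (s t : ℝ) : ℂ :=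
  Complex.exp (Complex.I * ((X s - X t : ℝ) : ℂ) - ((β * |y s - y t| : ℝ) : ℂ))

/-- **GEO.** Proof. For `s, t ∈ ℝ` let `n` be the integer with `|X s - X t - 2πn| ≤ π`. By `arc` for
`s, t + nL`: `c |s - t - nL| ≤ |X s - X t - 2πn| + |y s - y t|`. For `u ≥ 0`, `|v| ≤ π`:
`|1 - e^{-u+iv}| ≥ c' min(1, u + |v|)`. So `|1 - q| ≥ c'' d(s - t)`, `d` the distance to `Lℤ`
(bounded by `L/2`); for `s, t ∈ (0,L]`, `d(s-t) = min(|s-t|, L - |s-t|)`. Hence `q ≠ 1` for `s ≠ t`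
(note `|s-t| < L`), and `∫∫ |1-q|^{-1/2} ≤ C ∫∫ (|s-t|^{-1/2} + (L-|s-t|)^{-1/2}) < ∞`. -/
def S_GEO : Prop := ∀ (L β : ℝ) (X y : ℝ → ℝ), Crv L β X y →
  (∀ s ∈ Ioc (0 : ℝ) L, ∀ t ∈ Ioc (0 : ℝ) L, s ≠ t → qq β X y s t ≠ 1) ∧
  ∃ C : ℝ, 0 < C ∧ ∫⁻ s in Ioc (0 : ℝ) L, ∫⁻ t in Ioc (0 : ℝ) L,
    ENNReal.ofReal (‖1 - qq β X y s t‖ ^ (-(1 / 2) : ℝ)) ≤ ENNReal.ofReal C

/-- **SER.** Summation by parts. Proof. Let `w = N + 1 + |c|`, `r = |1 - q| ≤ 2`. (Tail) for every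
`M ≥ N`: `|∑_{M < m ≤ N'} q^m/(m+c)| ≤ (C/r) / (M + 1 + |c|)` (partial sums of `q^m` are bounded by
`2/r`, and `∑ |1/(m+c) - 1/(m+1+c)| ≤ C/(M+1+|c|)`, `|m + c| ≥ (m + |c|)/4` for `m ≥ 1`,
`|Re c| ≤ 1/2`). If `r w ≥ 1` take `M = N`: the bound is `C/(rw) ≤ C (rw)^{-1/4}`. If `r w < 1`: split
at `M ≈ 1/r`; head `∑_{N<m≤M} 4/(m+|c|) ≤ C w^{-1/4} ∑_{m ≤ M} (m+|c|)^{-3/4} ≤
C w^{-1/4} (M+|c|)^{1/4} ≤ C w^{-1/4} r^{-1/4}` (as `|c| ≤ w ≤ 1/r`), tail `≤ C`. -/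
def S_SER : Prop := ∃ C : ℝ, 0 < C ∧ ∀ q c : ℂ, ‖q‖ ≤ 1 → q ≠ 1 → |c.re| ≤ 1 / 2 → ∀ N N' : ℕ,
  ‖∑ m ∈ Finset.Ioc N N', q ^ m / ((m : ℂ) + c)‖ ≤ C * (‖1 - q‖ * (N + 1 + ‖c‖)) ^ (-(1 / 4) : ℝ)

/-! ## 2. Integral operators on `L²(0,L)` -/

/-- `T` is the integral operator with the kernel `k` on `L²(0,L)` -/
def IsKop (L : ℝ) (k : ℝ → ℝ → ℂ) (T : EL L →L[ℂ] EL L) : Prop :=
  ∀ e : EL L, (T e : ℝ → ℂ) =ᵐ[volume.restrict (Ioc (0 : ℝ) L)]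
    fun s => ∫ t in Ioc (0 : ℝ) L, k s t * e t

open Classical in
/-- the integral operator with the kernel `k` on `L²(0,L)` -/
def kop (L : ℝ) (k : ℝ → ℝ → ℂ) : EL L →L[ℂ] EL L :=
  if h : ∃ T, IsKop L k T then h.choose else 0

/-- `T` is small on the orthogonal complements of finite dimensional spaces -/
def FRk {E : Type} [NormedAddCommGroup E] [InnerProductSpace ℂ E] (T : E →L[ℂ] E) : Prop :=
  ∀ ε : ℝ, 0 < ε → ∃ (n : ℕ) (b : Fin n → E), Orthonormal ℂ b ∧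
    ∀ e : E, (∀ i, inner ℂ (b i) e = 0) → ‖T e‖ ≤ ε * ‖e‖

/-- **KOP.** Proof. `k` is bounded on `[0,L]²`; `e ↦ ∫ k(s,t) e(t) dt` maps `L²` to `L²` with norm at
most `(∫∫|k|²)^{1/2}` (Cauchy-Schwarz). `FRk`: with the partition of `(0,L]` into `n` intervals `I_j`
with end points `t_j`, `k_n(s,t) = k(s,t_j)` for `t ∈ I_j`; `sup |k - k_n| → 0` (uniform continuity), and
the operator of `k_n` vanishes on the functions orthogonal to the (orthogonal) indicators of the `I_j`. -/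
def S_KOP : Prop := ∀ (L : ℝ), 0 < L →
  (∀ k : ℝ → ℝ → ℂ, Continuous (Function.uncurry k) →
    IsKop L k (kop L k) ∧
    ‖kop L k‖ ^ 2 ≤ ∫ s in Ioc (0 : ℝ) L, ∫ t in Ioc (0 : ℝ) L, ‖k s t‖ ^ 2 ∧
    FRk (kop L k) ∧
    (∀ e' e : EL L, inner ℂ e' (kop L k e) =
      ∫ s in Ioc (0 : ℝ) L, ∫ t in Ioc (0 : ℝ) L, conj (e' s) * (k s t * e t)) ∧
    (kop L k).adjoint = kop L (fun s t => conj (k t s))) ∧
  (∀ k k' : ℝ → ℝ → ℂ, Continuous (Function.uncurry k) → Continuous (Function.uncurry k') →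
    kop L (fun s t => k s t + k' s t) = kop L k + kop L k') ∧
  (∀ (k : ℝ → ℝ → ℂ) (c : ℂ), Continuous (Function.uncurry k) →
    kop L (fun s t => c * k s t) = c • kop L k)

/-! ## 3. The modes -/

/-- kernel of the mode `m` -/
def mk (X y : ℝ → ℝ) (m : ℤ) (κ : ℂ) (s t : ℝ) : ℂ :=
  Complex.exp (Complex.I * ((m : ℂ) * ((X s - X t : ℝ) : ℂ))) *
    Complex.exp (-(κ * ((|y s - y t| : ℝ) : ℂ))) / (2 * κ)

/-- the mode operator -/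
def Mo (L : ℝ) (X y : ℝ → ℝ) (m : ℤ) (κ : ℂ) : EL L →L[ℂ] EL L := kop L (mk X y m κ)

/-- admissible sequences -/
structure Adm (β c₀ C₀ : ℝ) (κ : ℤ → ℂ) : Prop where
  lower : ∀ m, c₀ ≤ ‖κ m‖
  near : ∀ m : ℤ, ‖κ m - ((β * |(m : ℝ)| : ℝ) : ℂ)‖ ≤ C₀

/-- **MODE.** Proof. (1) On `κ ≠ 0` the kernel is analytic in `κ`, uniformly on `[0,L]²`; use
`‖kop k‖ ≤ L sup |k|` for the kernel of the remainder of the difference quotient. (2) `|y s - y t| ≤ Y`.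
`e^{-κu}/κ - e^{-κ'u}/κ' = (e^{-κu} - e^{-κ'u})/κ + e^{-κ'u}(κ'-κ)/(κκ')`. For `β|m| ≤ 2 C₀` this is
`≤ C|κ - κ'|` on the bounded set in question. For `β|m| > 2C₀`: on the segment between `κ` and `κ'` one
has `Re ≥ β|m|/2`, `|.| ≤ 2β|m|`, so `|d/dκ (e^{-κu}/κ)| = |(1+κu) e^{-κu}|/|κ|² ≤ C/|κ|²`
(`u|κ| e^{-u Re κ} ≤ 4 u Re κ e^{-u Re κ} ≤ 4`). -/
def S_MODE : Prop := ∀ (L β : ℝ) (X y : ℝ → ℝ), Crv L β X y →
  (∀ m : ℤ, DifferentiableOn ℂ (fun κ => Mo L X y m κ) {κ | κ ≠ 0}) ∧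
  ∀ c₀ C₀ : ℝ, 0 < c₀ → ∃ C : ℝ, 0 < C ∧ ∀ (m : ℤ) (κ κ' : ℂ), c₀ ≤ ‖κ‖ → c₀ ≤ ‖κ'‖ →
    ‖κ - ((β * |(m : ℝ)| : ℝ) : ℂ)‖ ≤ C₀ → ‖κ' - ((β * |(m : ℝ)| : ℝ) : ℂ)‖ ≤ C₀ →
    ‖Mo L X y m κ - Mo L X y m κ'‖ ≤ C * ‖κ - κ'‖ / (1 + (m : ℝ) ^ 2)

/-! ## 4. The sums over the modes -/

/-- partial sums -/
def PS (L : ℝ) (X y : ℝ → ℝ) (κ : ℤ → ℂ) (N : ℕ) : EL L →L[ℂ] EL L :=
  ∑ m ∈ Finset.Icc (-(N : ℤ)) N, Mo L X y m (κ m)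

/-- the operator `K` on the curve -/
def KK (L : ℝ) (X y : ℝ → ℝ) (κ : ℤ → ℂ) : EL L →L[ℂ] EL L := limUnder atTop (PS L X y κ)

/-- **CONV.** Proof. Compare with the reference sequence `κ_m = β|m|`, `m ≠ 0`: by MODE (2) (with
`C₀`, `c₀` replaced by `min c₀ β`) the differences of the modes are `≤ C/(1+m²)`. For the reference, the
sum over `N < |m| ≤ N'` has the kernel `∑_{N<m≤N'} (q^m + conj q^m)/(2βm)` (`q = qq`), which is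
`≤ C (|1-q| (N+1))^{-1/4}` off the diagonal by SER with `c = 0` and GEO; so by KOP its operator norm is
`≤ C (N+1)^{-1/4} (∫∫ |1-q|^{-1/2})^{1/2}`. Cauchy sequence with rate, complete space. -/
def S_CONV : Prop := ∀ (L β : ℝ) (X y : ℝ → ℝ), Crv L β X y → ∀ c₀ C₀ : ℝ, 0 < c₀ →
  ∃ ρ : ℕ → ℝ, Tendsto ρ atTop (𝓝 0) ∧ ∀ κ : ℤ → ℂ, Adm β c₀ C₀ κ → ∀ N,
    ‖PS L X y κ N - KK L X y κ‖ ≤ ρ N

/-- **LIP.** From CONV (limits) and MODE (2), `∑ 1/(1+m²) < ∞`. -/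
def S_LIP : Prop := ∀ (L β : ℝ) (X y : ℝ → ℝ), Crv L β X y → ∀ c₀ C₀ : ℝ, 0 < c₀ →
  ∃ C : ℝ, 0 < C ∧ ∀ (κ κ' : ℤ → ℂ) (ε : ℝ), Adm β c₀ C₀ κ → Adm β c₀ C₀ κ' →
    (∀ m, ‖κ m - κ' m‖ ≤ ε) → ‖KK L X y κ - KK L X y κ'‖ ≤ C * ε

/-- **FAM.** The partial sums are analytic by MODE (1) and converge uniformly by CONV
(`TendstoLocallyUniformlyOn.differentiableOn`). -/
def S_FAM : Prop := ∀ (L β : ℝ) (X y : ℝ → ℝ), Crv L β X y → ∀ c₀ C₀ : ℝ, 0 < c₀ →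
  ∀ (U : Set ℂ) (κ : ℤ → ℂ → ℂ), IsOpen U → (∀ m, DifferentiableOn ℂ (κ m) U) →
    (∀ θ ∈ U, Adm β c₀ C₀ fun m => κ m θ) →
    DifferentiableOn ℂ (fun θ => KK L X y fun m => κ m θ) U

/-- **FRK.** `FRk` is stable under sums (for the sum of the finite dimensional spaces: take an
orthonormal basis of the span of both families) and norm limits; KOP and CONV. -/
def S_FRK : Prop := ∀ (L β : ℝ) (X y : ℝ → ℝ), Crv L β X y → ∀ c₀ C₀ : ℝ, 0 < c₀ →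
  ∀ κ : ℤ → ℂ, Adm β c₀ C₀ κ → ∀ a : ℂ, FRk (a • KK L X y κ)

/-! ## 5. The roots `κ_m` -/

/-- principal square root -/
def csq (w : ℂ) : ℂ := w ^ (1 / 2 : ℂ)

/-- the outgoing roots, `θ` real, `Im z ≥ 0` -/
def kpl (β θ : ℝ) (z : ℂ) (m : ℤ) : ℂ :=
  -Complex.I * csq (z - (((β * ((m : ℝ) + θ)) ^ 2 : ℝ) : ℂ))

/-- the mixed roots, `λ` real, `0 < Re θ < 1`, `Im θ ≥ 0` -/
def kmi (β : ℝ) (θ : ℂ) (lam : ℝ) (m : ℤ) : ℂ :=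
  if 0 ≤ m then csq (((β : ℂ) * ((m : ℂ) + θ)) ^ 2 - (lam : ℂ))
  else conj (csq (conj (((β : ℂ) * ((m : ℂ) + θ)) ^ 2 - (lam : ℂ))))

/-- thresholds -/
def Thr (β θ : ℝ) : Set ℝ := {lam | ∃ m : ℤ, lam = (β * ((m : ℝ) + θ)) ^ 2}

/-- **KPL.** Scalar facts on the outgoing roots. Proof. `csq` is continuous on the closed upper half
plane, `csq w ^ 2 = w`; for `Im w ≥ 0`, `w ≠ 0`: `arg (csq w) ∈ [0, π/2]`, so `Re (-i csq w) ≥ 0`, `> 0` if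
`Im w > 0` or `w < 0`. `|κ_m - β|m||`: `κ_m² - β²m² = 2β²mθ + β²θ² - z` and `|κ_m + β|m|| ≥ β|m|`
(`Re κ_m ≥ 0`), for `m = 0` trivial bound. For two values: `|κ_m(z) - κ_m(z')| = |z - z'|/|κ_m(z) + κ_m(z')|`,
and `|κ_m(z)+κ_m(z')| ≥ |κ_m(z)|` because both lie in the closed quadrant `Re ≥ 0`, `Im ≤ 0`. -/
def S_KPL : Prop := ∀ (β θ : ℝ), 0 < β → 0 < θ → θ < 1 →
  (∀ lam : ℝ, lam ∉ Thr β θ → ∃ δ c₀ C₀ C : ℝ, 0 < δ ∧ 0 < c₀ ∧ 0 < C ∧ ∀ z : ℂ, 0 ≤ z.im →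
    ‖z - lam‖ < δ → Adm β c₀ C₀ (kpl β θ z) ∧
      ∀ m, ‖kpl β θ z m - kpl β θ lam m‖ ≤ C * ‖z - lam‖) ∧
  (∀ z : ℂ, 0 < z.im → (∃ c₀ C₀ : ℝ, 0 < c₀ ∧ Adm β c₀ C₀ (kpl β θ z)) ∧
    ∀ m, 0 < (kpl β θ z m).re ∧ kpl β θ z m ^ 2 = (((β * ((m : ℝ) + θ)) ^ 2 : ℝ) : ℂ) - z) ∧
  (∀ M : ℝ, 0 < M → ∀ m : ℤ, kpl β θ (-(M : ℂ)) m = ((√((β * ((m : ℝ) + θ)) ^ 2 + M) : ℝ) : ℂ))

/-- **KMI.** The mixed roots are analytic and admissible near every point of the open half strip.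
Proof. `w_m = β²(m+θ)² - λ` has `Im w_m = 2β²(m + Re θ) Im θ ≠ 0`, so `kmi = csq w_m` (for `m < 0` use
`conj (csq (conj w)) = csq w` off the negative axis), `Re csq w_m > 0`. On a small ball `|w_m|` is bounded
below uniformly in `m`; `|csq w_m - β|m|| ≤ C₀` as in KPL (`w_m - β²m² = 2β²mθ + β²θ² - λ`). -/
def S_KMI : Prop := ∀ (β : ℝ) (θ₀ : ℂ) (lam : ℝ), 0 < β → 0 < θ₀.re → θ₀.re < 1 → 0 < θ₀.im →
  ∃ r c₀ C₀ : ℝ, 0 < r ∧ 0 < c₀ ∧ (∀ m, DifferentiableOn ℂ (fun θ => kmi β θ lam m)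
    (Metric.ball θ₀ r)) ∧ ∀ θ ∈ Metric.ball θ₀ r, Adm β c₀ C₀ (kmi β θ lam)

/-- **KLOC.** Analytic continuation of the mixed roots through the real axis. Proof. Let
`w_m = β²(m+θ)² - λ` and `w⁰_m` its value at `(θ₀, λ₀)`, a nonzero real number; `inf_m |w⁰_m| > 0` (only
finitely many `w⁰_m` are `≤ 1`). Put `κ = csq w_m` if `w⁰_m > 0`; if `w⁰_m < 0`: `κ = i csq (-w_m)` for
`m ≥ 0` and `κ = -i csq (-w_m)` for `m < 0`. For `r, δ` small (`|w_m - w⁰_m| ≤ C (1+|m|)(r+δ) ≤ |w⁰_m|/2`,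
as `|w⁰_m| ≥ c (1+|m|)`... note `|w⁰_m| ≥ c(1+m²)`) all arguments have positive real part: analytic, `Re κ > 0`
or (finitely many `m`) bounded, Lipschitz in `λ` because
`|κ - κ'| = |λ - λ'|/|κ + κ'|` and both are in a common sector. For `Im θ > 0` small, `m ≥ 0`,
`w⁰_m < 0`: `Im w_m > 0`, and `csq w = i csq (-w)` for `Im w > 0`; for `m < 0`: `Im w_m < 0` and
`conj (csq (conj w)) = csq w = - i csq (-w)`. For `θ` real and `w_m < 0`: `csq w_m = i √|w_m|` and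
`conj (csq (conj w_m)) = - i √|w_m|`. -/
def S_KLOC : Prop := ∀ (β θ₀ lam₀ : ℝ), 0 < β → 0 < θ₀ → θ₀ < 1 → lam₀ ∉ Thr β θ₀ →
  ∃ (r δ c₀ C₀ C : ℝ) (κ : ℤ → ℂ → ℝ → ℂ), 0 < r ∧ 0 < δ ∧ 0 < c₀ ∧ 0 < C ∧
    Metric.ball (θ₀ : ℂ) r ⊆ {θ | 0 < θ.re ∧ θ.re < 1} ∧
    (∀ θ : ℝ, |θ - θ₀| < r → ∀ lam : ℝ, |lam - lam₀| < δ → lam ∉ Thr β θ) ∧
    (∀ lam : ℝ, |lam - lam₀| < δ → ∀ m,
      DifferentiableOn ℂ (fun θ => κ m θ lam) (Metric.ball (θ₀ : ℂ) r)) ∧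
    (∀ θ ∈ Metric.ball (θ₀ : ℂ) r, ∀ lam : ℝ, |lam - lam₀| < δ →
      Adm β c₀ C₀ (fun m => κ m θ lam) ∧
      (∀ lam' : ℝ, |lam' - lam₀| < δ → ∀ m, ‖κ m θ lam - κ m θ lam'‖ ≤ C * |lam - lam'|) ∧
      (0 ≤ θ.im → ∀ m, κ m θ lam = kmi β θ lam m))

/-! ## 6. Decay and open channels -/

/-- **DEC.** Proof. `θ = 1/2 + iτ`. Model roots `κ⁰_m = β(m+θ)` for `m ≥ 0`, `-β(m+θ)` for `m < 0`. The
kernel of `∑_{|m|≤N} Mo m κ⁰_m` is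
`e^{-βθ|Δy|}(1/(2βθ) + ∑_{1≤m≤N} q^m/(2β(m+θ))) + e^{βθ|Δy|} ∑_{1≤m≤N} (conj q)^m/(2β(m-θ))`, which is
`≤ C (1+τ)^{-1} + C (|1-q|(1+τ))^{-1/4}` by SER with `c = θ` and `c = -θ` (the factors `e^{±βθ|Δy|}` are
bounded); so by KOP and GEO the norm of the partial sum is `≤ C (1+τ)^{-1/4}`, uniformly in `N`.
The true roots: `κ_m = csq (κ⁰_m² - λ)`, `Re κ_m > 0`, `|κ_m - κ⁰_m| ≤ |λ|/|κ_m + κ⁰_m| ≤ C|λ|/|m+θ|`, and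
`|e^{-κu}/κ - e^{-κ⁰u}/κ⁰| ≤ C |κ - κ⁰| (1 + |κ⁰|)/|κ⁰|²` for `0 ≤ u ≤ Y`, so the norms of the differences
of the modes are `≤ C|λ|/|m+θ|²`, with sum `≤ C|λ|/(1+τ)`. Let `N → ∞` (CONV, KMI). -/
def S_DEC : Prop := ∀ (L β : ℝ) (X y : ℝ → ℝ), Crv L β X y → ∀ lam : ℝ,
  Tendsto (fun τ : ℝ => KK L X y (kmi β ((1 / 2 : ℝ) + τ * Complex.I) lam)) atTop (𝓝 0)

/-- **OPEN.** Proof. `λ ∉ Thr`. For `m` with `β²(m+θ)² > λ` (closed): `kpl = kmi = √(β²(m+θ)²-λ) > 0`,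
the mode operator is selfadjoint. For `m` with `β²(m+θ)² < λ` (open, finitely many), with
`ν = √(λ - β²(m+θ)²)`: `kpl = -iν`, `kmi = iν` or `-iν`, and `Im ⟨h, Mo m (-iν) h⟩ =
(1/(4ν)) (|⟨a₊,h⟩|² + |⟨a₋,h⟩|²)`, `a_±(s) = e^{i(m X s ± ν y s)}`
(the kernel `(k(s,t) - conj k(t,s))/(2i)` is `e^{imΔX} cos(νΔy)/(2ν)`). If `a K⁺ h = h`, `a` real (`a ≠ 0`
as otherwise `h = 0`) then `⟨h, K⁺h⟩` is real, so the sum over the open `m` of these squares vanishes (limit of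
partial sums), hence `Mo m (iν) h = Mo m (-iν) h` (the difference has the kernel
`± e^{imΔX} (i/ν) cos(νΔy)`), so `K^{mix} h = K⁺ h`. -/
def S_OPEN : Prop := ∀ (L β : ℝ) (X y : ℝ → ℝ), Crv L β X y → ∀ θ lam a : ℝ, 0 < θ → θ < 1 →
  lam ∉ Thr β θ → ∀ e : EL L, (a : ℂ) • KK L X y (kpl β θ lam) e = e →
    (a : ℂ) • KK L X y (kmi β θ lam) e = e

/-! ## 7. Fredholm theory and null sets -/

/-- **FRED.** Fredholm alternative. Proof. Such a `T` is compact (norm limit of finite rank operators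
`T P`); or directly: choose `b` for `ε = 1/2`, `P` the projection, `R = 1 - T(1-P)` is invertible,
`1 - T = R (1 - R⁻¹TP)`, finite dimensional linear algebra. -/
def S_FRED : Prop := ∀ (E : Type) [NormedAddCommGroup E] [InnerProductSpace ℂ E] [CompleteSpace E]
  (T : E →L[ℂ] E), FRk T → (∀ e, T e = e → e = 0) → IsUnit (1 - T)

/-- **DET.** Local determinants. Proof. Choose `b` for `ε = 1/4` at `(θ₀,λ₀)`, `P e = ∑ ⟨b_i,e⟩ b_i`; near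
`(θ₀,λ₀)` `‖T(1-P)‖ ≤ 1/2`, so `R = 1 - T(1-P)` is invertible, with `R⁻¹` analytic in `θ` and Lipschitz in
`λ`; `1 - T = R(1 - S P)`, `S = R⁻¹ T`, is invertible iff the matrix `δ_ij - ⟨b_i, S b_j⟩` is; `D` its
determinant. (If the determinant vanishes, `c ≠ 0` in the kernel gives `e = S ∑ c_j b_j ≠ 0` with
`SPe = e`.) -/
def S_DET : Prop := ∀ (E : Type) [NormedAddCommGroup E] [InnerProductSpace ℂ E] [CompleteSpace E]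
  (θ₀ : ℂ) (lam₀ r δ C : ℝ) (T : ℂ → ℝ → E →L[ℂ] E), 0 < r → 0 < δ →
  (∀ lam : ℝ, |lam - lam₀| < δ → DifferentiableOn ℂ (fun θ => T θ lam) (Metric.ball θ₀ r)) →
  (∀ θ ∈ Metric.ball θ₀ r, ∀ lam lam' : ℝ, |lam - lam₀| < δ → |lam' - lam₀| < δ →
    ‖T θ lam - T θ lam'‖ ≤ C * |lam - lam'|) → FRk (T θ₀ lam₀) →
  ∃ (r' δ' C' : ℝ) (D : ℂ → ℝ → ℂ), 0 < r' ∧ r' ≤ r ∧ 0 < δ' ∧ δ' ≤ δ ∧
    (∀ lam : ℝ, |lam - lam₀| < δ' → DifferentiableOn ℂ (fun θ => D θ lam) (Metric.ball θ₀ r')) ∧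
    (∀ θ ∈ Metric.ball θ₀ r', ∀ lam lam' : ℝ, |lam - lam₀| < δ' → |lam' - lam₀| < δ' →
      ‖D θ lam - D θ lam'‖ ≤ C' * |lam - lam'|) ∧
    (∀ θ ∈ Metric.ball θ₀ r', ∀ lam : ℝ, |lam - lam₀| < δ' → (IsUnit (1 - T θ lam) ↔ D θ lam ≠ 0))

/-- **NULL.** Proof. `D_n(θ,λ) = iteratedDeriv n (D(·,λ)) θ`, continuous in `(θ,λ)`, locally Lipschitz in
`λ` by Cauchy's estimates for `D(·,λ) - D(·,λ')`. `D(·,λ) ≢ 0` on the ball, so at every zero `(θ,λ)`, `θ`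
real, there is a least `n` with `D_{n+1} ≠ 0`, `D_0 = ... = D_n = 0`. Near such a point one of the real functions
`u = Re D_n`, `Im D_n` of the real variable `θ` satisfies `|∂_θ u| ≥ c` (a fixed sign), and `|u(θ,λ) - u(θ,λ')| ≤ C|λ-λ'|`.
Two zeros `(θ,λ), (θ',λ')` of `u` in a small box satisfy `c|θ - θ'| ≤ |u(θ,λ) - u(θ',λ)| = |u(θ',λ') - u(θ',λ)|
≤ C|λ - λ'|`: in the box, the zeros with order `n` are the graph of a Lipschitz function `θ = g(λ)`, and Lipschitz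
images of null sets of `ℝ` are null (hausdorffMeasure_real). Lindelöf: countably many boxes. -/
def S_NULL : Prop := ∀ (θ₀ lam₀ r δ C : ℝ) (D : ℂ → ℝ → ℂ), 0 < r → 0 < δ →
  (∀ lam : ℝ, |lam - lam₀| < δ →
    DifferentiableOn ℂ (fun θ => D θ lam) (Metric.ball (θ₀ : ℂ) r)) →
  (∀ θ ∈ Metric.ball (θ₀ : ℂ) r, ∀ lam lam' : ℝ, |lam - lam₀| < δ → |lam' - lam₀| < δ →
    ‖D θ lam - D θ lam'‖ ≤ C * |lam - lam'|) →
  (∀ lam : ℝ, |lam - lam₀| < δ → ∃ θ ∈ Metric.ball (θ₀ : ℂ) r, D θ lam ≠ 0) →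
  ∀ B : Set ℝ, volume B = 0 →
    volume {θ : ℝ | |θ - θ₀| < r ∧ ∃ lam ∈ B, |lam - lam₀| < δ ∧ D θ lam = 0} = 0

/-- the bad Floquet parameters -/
def Bad (L β : ℝ) (X y : ℝ → ℝ) (a : ℝ) (B : Set ℝ) : Set ℝ :=
  {θ | 0 < θ ∧ θ < 1 ∧ ∃ lam ∈ B, lam ∈ Thr β θ ∨
    ¬ IsUnit (1 - (a : ℂ) • KK L X y (kpl β θ lam))}

/-- **BAD.** Assembly of 4-7. Proof. Thresholds: for each `m`, `{θ ∈ (0,1) : β²(m+θ)² ∈ B}` is null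
(the derivative `2β²(m+θ)` does not vanish). If `1 - aK⁺` is not a unit, `λ ∉ Thr`, then by FRED, FRK, KPL there is
`e ≠ 0` with `aK⁺e = e`, so `1 - aK^{mix}` is not a unit by OPEN. (Half strip) fix `λ`; `Ω = {0 < Re θ < 1, Im θ > 0}`;
the interior `O` of `{θ ∈ Ω : 1 - aK^{mix}(θ,λ) not a unit}` is closed in `Ω` (DET at a boundary point, with
KMI, FAM, FRK and `T θ lam'` independent of `lam'`; the identity theorem for `D`), `Ω` is connected and by DEC some point is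
not in it, so `O = ∅`. (Near the real axis) `(θ₀,λ₀)`, `θ₀ ∈ (0,1)`, `λ₀ ∉ Thr`: `T(θ,λ) = a KK(κ(θ,λ))` with `κ` of
KLOC satisfies the hypotheses of DET (FAM, LIP, FRK); `D(·,λ) ≡ 0` is impossible, since otherwise an
open subset of `Ω` is bad; NULL. The set `{(θ,λ) : θ ∈ (0,1), λ ∉ Thr β θ}` is covered by countably many boxes
(Lindelöf). -/
def S_BAD : Prop := ∀ (L β : ℝ) (X y : ℝ → ℝ), Crv L β X y → ∀ (a : ℝ) (B : Set ℝ), 0 < a →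
  volume B = 0 → volume (Bad L β X y a B) = 0

end Pool.Agent.H773.LK
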