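import Pool.Agent.H773.LK.Res
import Pool.Graph.R_pool_sql_team_seeded_1acbe0a2.Y663.WA.Vec

/-! # The abstract fibre theorem (project LK, helper773) -/

set_option autoImplicit false

noncomputable section

namespace Pool.Agent.H773.LK

open MeasureTheory Filter Topology Set
open scoped ENNReal NNReal ComplexConjugate InnerProductSpace

section vec

variable {F : Type} [NormedAddCommGroup F] [InnerProductSpace ℂ F] [CompleteSpace F]

/-- the set of vectors whose spectral measure does not charge `B` is invariant under the operator -/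
theorem null_map (A : F →L[ℂ] F) (hA : IsSelfAdjoint A) (B : Set ℝ) (hB : MeasurableSet B) (v : F)
    (h : ∀ ν : Measure ℝ, SpM A v ν → ν B = 0) :
    ∀ ν : Measure ℝ, SpM A (A v) ν → ν B = 0 := by
  intro ν' hν'
  obtain ⟨ν, hν⟩ := t_SPX F A hA v
  haveI := hν.1
  haveI := hν'.1
  have h0 := h ν hν
  obtain ⟨f, hf1, hf2, hf3⟩ := Pool.Agent.TH369.SJ.BF.approx (ν + ν') hB
  have hν3 : ∀ᵐ x ∂ν, Tendsto (fun n => f n x) atTop (𝓝 (Pool.Agent.TH369.SJ.BF.ind B x)) :=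
    (Measure.absolutelyContinuous_of_le (Measure.le_add_right le_rfl)).ae_le hf3
  have hν3' : ∀ᵐ x ∂ν', Tendsto (fun n => f n x) atTop (𝓝 (Pool.Agent.TH369.SJ.BF.ind B x)) :=
    (Measure.absolutelyContinuous_of_le (Measure.le_add_left le_rfl)).ae_le hf3
  have t1 := Pool.Agent.Y663.WA.tendsto_sq ν hB f hf1 hf2 hν3
  have t2 := Pool.Agent.Y663.WA.tendsto_sq ν' hB f hf1 hf2 hν3'
  have e1 : ∀ n, ∫ x, f n x ^ 2 ∂ν = ‖cfc (f n) A v‖ ^ 2 := fun n =>
    (Pool.Agent.TH369.SJ.BF.normsq A hA v ν ((spm_lib A hA v ν).1 hν) (hf1 n)).symm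
  have e2 : ∀ n, ∫ x, f n x ^ 2 ∂ν' = ‖cfc (f n) A (A v)‖ ^ 2 := fun n =>
    (Pool.Agent.TH369.SJ.BF.normsq A hA (A v) ν' ((spm_lib A hA (A v) ν').1 hν') (hf1 n)).symm
  simp only [e1] at t1
  simp only [e2] at t2
  have e3 : ∀ n, cfc (f n) A (A v) = A (cfc (f n) A v) := by
    intro n
    have h1 : Commute (cfc (f n) A) A := (Commute.refl A).cfc_real (f n) |>.symm.symm
    exact congrArg (fun R : F →L[ℂ] F => R v) h1.eq
  rw [measureReal_def, h0, ENNReal.toReal_zero] at t1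
  have t3 : Tendsto (fun n => ‖A‖ ^ 2 * ‖cfc (f n) A v‖ ^ 2) atTop (𝓝 (‖A‖ ^ 2 * 0)) :=
    t1.const_mul _
  rw [mul_zero] at t3
  have h1 : ν'.real B ≤ 0 := by
    refine le_of_tendsto_of_tendsto' t2 t3 fun n => ?_
    rw [e3, ← mul_pow]
    exact pow_le_pow_left₀ (norm_nonneg _) (A.le_opNorm _) 2
  have h2 : ν'.real B = 0 := le_antisymm h1 measureReal_nonneg
  rw [measureReal_def, ENNReal.toReal_eq_zero_iff] at h2
  exact h2.resolve_right (measure_ne_top _ _)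

theorem null_pow (A : F →L[ℂ] F) (hA : IsSelfAdjoint A) (B : Set ℝ) (hB : MeasurableSet B) (v : F)
    (h : ∀ ν : Measure ℝ, SpM A v ν → ν B = 0) (n : ℕ) :
    ∀ ν : Measure ℝ, SpM A ((A ^ n) v) ν → ν B = 0 := by
  induction n with
  | zero => simpa using h
  | succ n ih =>
    have h1 : (A ^ (n + 1)) v = A ((A ^ n) v) := by
      rw [pow_succ']; rfl
    rw [h1]
    exact null_map A hA B hB _ ih

/-- the sets of vectors with null spectral measure on `B` from a total set -/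
theorem null_total (A : F →L[ℂ] F) (hA : IsSelfAdjoint A) (B : Set ℝ) (hB : MeasurableSet B)
    (S : Set F) (hS : ∀ x : F, (∀ s ∈ S, inner ℂ s x = 0) → x ∈ S)
    (h : ∀ s ∈ S, ∀ ν : Measure ℝ, SpM A s ν → ν B = 0) :
    ∀ (v : F) (ν : Measure ℝ), SpM A v ν → ν B = 0 := by
  have hdense : (Submodule.span ℂ (Set.range (fun s : S => (s : F)))).topologicalClosure = ⊤ := by
    rw [Submodule.topologicalClosure_eq_top_iff, Submodule.eq_bot_iff]
    intro x hx
    have h1 : ∀ s ∈ S, inner ℂ s x = 0 := fun s hs =>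
      (Submodule.mem_orthogonal _ x).1 hx s (Submodule.subset_span ⟨⟨s, hs⟩, rfl⟩)
    have h2 := h1 x (hS x h1)
    exact inner_self_eq_zero.1 h2
  intro v ν hν
  refine Pool.Agent.Y663.WA.null_all A hA (fun s : S => (s : F)) hB ?_ ?_ v ν
    ((spm_lib A hA v ν).1 hν)
  · intro φ δ hδ
    have h1 : φ ∈ (Submodule.span ℂ (Set.range (fun s : S => (s : F)))).topologicalClosure := by
      rw [hdense]; trivial
    have h2 : φ ∈ closure ((Submodule.span ℂ (Set.range (fun s : S => (s : F)))) : Set F) := h1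
    obtain ⟨k, hk, hk2⟩ := Metric.mem_closure_iff.1 h2 δ hδ
    obtain ⟨c, hc⟩ := (Finsupp.mem_span_range_iff_exists_finsupp).1 hk
    refine ⟨c.support, c, ?_⟩
    rw [dist_eq_norm] at hk2
    have h3 : ∑ i ∈ c.support, c i • (i : F) = k := by
      rw [← hc]; rfl
    rw [h3]
    exact hk2.le
  · intro s ν hν
    exact h s s.2 ν ((spm_lib A hA s ν).2 hν)

end vec

variable {F E : Type} [NormedAddCommGroup F] [InnerProductSpace ℂ F] [CompleteSpace F]
  [NormedAddCommGroup E] [InnerProductSpace ℂ E] [CompleteSpace E]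

/-- `D (1 - T)⁻¹ D` is selfadjoint -/
theorem sa_DVD (D T Vi : F →L[ℂ] F) (hD : IsSelfAdjoint D) (hT : IsSelfAdjoint T)
    (h2 : (1 - T) * Vi = 1) : IsSelfAdjoint Vi ∧ IsSelfAdjoint (D * Vi * D) := by
  have hVs : IsSelfAdjoint Vi := by
    have h3 : star Vi * (1 - T) = 1 := by
      have := congrArg star h2
      rw [star_mul, star_sub, star_one, hT.star_eq] at this
      exact this
    have h4 : star Vi = Vi := by
      calc star Vi = star Vi * ((1 - T) * Vi) := by rw [h2, mul_one]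
        _ = (star Vi * (1 - T)) * Vi := by rw [mul_assoc]
        _ = Vi := by rw [h3, one_mul]
    exact h4
  refine ⟨hVs, ?_⟩
  unfold IsSelfAdjoint
  rw [star_mul, star_mul, hD.star_eq, hVs.star_eq, mul_assoc]

theorem sa_inner {A : F →L[ℂ] F} (hA : IsSelfAdjoint A) (x y : F) :
    inner ℂ (A x) y = inner ℂ x (A y) := by
  have h1 := ContinuousLinearMap.adjoint_inner_left A y x
  rw [show ContinuousLinearMap.adjoint A = A from hA.star_eq] at h1
  exact h1

/-- the Borel transform of the vectors `D V⁻¹ Y^* e` -/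
theorem borel_bdd (D : F →L[ℂ] F) (Ys : E →L[ℂ] F) (a M : ℝ) (Vi : F →L[ℂ] F)
    (hD : IsSelfAdjoint D) (ha : 0 < a)
    (hV1 : Vi * (1 - (a : ℂ) • (Ys ∘L Ys.adjoint)) = 1)
    (hVs : IsSelfAdjoint Vi) (hA : IsSelfAdjoint (D * Vi * D)) (t : ℝ) (ht : 0 < t)
    (δ C : ℝ) (hδ : 0 < δ)
    (h : ∀ (z : ℂ) (Wi : F →L[ℂ] F), 0 < z.im →
    ‖z - ((1 / t - M : ℝ) : ℂ)‖ < δ → Wi * (1 - (z + M) • (D * D)) = 1 →
    (1 - (z + M) • (D * D)) * Wi = 1 →
    ∃ T : E →L[ℂ] E, T * (1 - (a : ℂ) • (Ys.adjoint ∘L Wi ∘L Ys)) = 1 ∧ ‖T‖ ≤ C)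
    (e : E) (ν : Measure ℝ) (hν : SpM (D * Vi * D) (D (Vi (Ys e))) ν) :
    ∃ δ' C' : ℝ, 0 < δ' ∧ ∀ ζ : ℂ, ζ.im < 0 → ‖ζ - t‖ < δ' →
      ‖∫ s : ℝ, 1 / ((s : ℂ) - ζ) ∂ν‖ ≤ C' := by
  refine ⟨min (t / 2) (δ * t ^ 2 / 2), ‖e‖ * ((C + 1) / a * ‖e‖) + ‖Ys e‖ * ‖Vi (Ys e)‖,
    by positivity, ?_⟩
  intro ζ hζ hζt
  have hζ1 : ‖ζ - t‖ < t / 2 := lt_of_lt_of_le hζt (min_le_left _ _)
  have hζ2 : ‖ζ - t‖ < δ * t ^ 2 / 2 := lt_of_lt_of_le hζt (min_le_right _ _)
  have hζ0 : ζ ≠ 0 := by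
    intro h0; rw [h0] at hζ; simp at hζ
  have hζn : t / 2 ≤ ‖ζ‖ := by
    have h1 : ‖(t : ℂ)‖ ≤ ‖ζ‖ + ‖ζ - t‖ := by
      have h2 : (t : ℂ) = ζ - (ζ - t) := by ring
      calc ‖(t : ℂ)‖ = ‖ζ - (ζ - t)‖ := by rw [← h2]
        _ ≤ ‖ζ‖ + ‖ζ - t‖ := norm_sub_le _ _
    rw [Complex.norm_real, Real.norm_of_nonneg ht.le] at h1
    linarith
  have hζi : ζ.im ≠ 0 := hζ.ne
  set z : ℂ := 1 / ζ - M with hz
  have hzM : z + M = ζ⁻¹ := by rw [hz]; ring
  have hzim : 0 < z.im := by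
    have h1 : z.im = (ζ⁻¹).im := by rw [← hzM]; simp
    rw [h1, Complex.inv_im]
    have h2 : 0 < Complex.normSq ζ := Complex.normSq_pos.2 hζ0
    exact div_pos (by linarith) h2
  have hzt : ‖z - ((1 / t - M : ℝ) : ℂ)‖ < δ := by
    have htc : (t : ℂ) ≠ 0 := by exact_mod_cast ht.ne'
    have h1 : z - ((1 / t - M : ℝ) : ℂ) = (t - ζ) / (ζ * t) := by
      rw [hz]; push_cast; field_simp; ring
    rw [h1, norm_div, norm_mul, Complex.norm_real, Real.norm_of_nonneg ht.le, norm_sub_rev,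
      div_lt_iff₀ (by positivity)]
    calc ‖ζ - t‖ < δ * t ^ 2 / 2 := hζ2
      _ = δ * (t / 2 * t) := by ring
      _ ≤ δ * (‖ζ‖ * t) := by gcongr
  -- invertibility of `W`
  have hDD : IsSelfAdjoint (D * D) := by
    unfold IsSelfAdjoint
    rw [star_mul, hD.star_eq]
  have hW : IsUnit (1 - (z + M) • (D * D)) := by
    have h1 := (t_RES F (D * D) hDD ζ hζi).1
    have h2 : (1 - (z + M) • (D * D)) = (-(z + M)) • (D * D - ζ • (1 : F →L[ℂ] F)) := by
      rw [smul_sub, smul_smul, hzM, neg_mul, inv_mul_cancel₀ hζ0]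
      simp only [neg_smul, one_smul]
      abel
    rw [h2]
    have h3 : (-(z + M)) ≠ 0 := by rw [hzM]; exact neg_ne_zero.2 (inv_ne_zero hζ0)
    exact (Units.mk0 _ h3 • h1.unit).isUnit
  obtain ⟨T, hT1, hT2⟩ := h z (Ring.inverse _) hzim hzt (Ring.inverse_mul_cancel _ hW)
    (Ring.mul_inverse_cancel _ hW)
  set Wi : F →L[ℂ] F := Ring.inverse (1 - (z + M) • (D * D)) with hWi
  have hWi1 : ∀ x : F, Wi (x - ζ⁻¹ • D (D x)) = x := by
    intro x
    have h1 := congrArg (fun R : F →L[ℂ] F => R x) (Ring.inverse_mul_cancel _ hW)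
    rw [← hWi, hzM] at h1
    exact h1
  -- the solution
  set v : F := D (Vi (Ys e)) with hv
  obtain ⟨u, hu⟩ : ∃ u : F, (D * Vi * D) u - ζ • u = v := by
    have h1 := (t_RES F (D * Vi * D) hA ζ hζi).1
    refine ⟨Ring.inverse ((D * Vi * D) - ζ • 1) v, ?_⟩
    exact congrArg (fun R : F →L[ℂ] F => R v) (Ring.mul_inverse_cancel _ h1)
  have hint := (t_RES F (D * Vi * D) hA ζ hζi).2 v u ν hν hu
  rw [← hint]
  have hu' : D (Vi (D u)) - ζ • u = D (Vi (Ys e)) := hu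
  -- `u = -ζ⁻¹ D x`, `V x - ζ⁻¹ D² x = Ys e`
  set x : F := Vi (Ys e) - Vi (D u) with hx
  have hux : u = -ζ⁻¹ • D x := by
    have h1 : ζ • u = -D x := by
      rw [hx, map_sub, ← hu']; abel
    rw [neg_smul, ← smul_neg, ← h1, smul_smul, inv_mul_cancel₀ hζ0, one_smul]
  have hVap : ∀ w : F, Vi (w - (a : ℂ) • Ys (Ys.adjoint w)) = w := by
    intro w
    exact congrArg (fun R : F →L[ℂ] F => R w) hV1
  have hVx : Vi (D (D x)) = ζ • (x - Vi (Ys e)) := by
    have h1 : D u = -ζ⁻¹ • D (D x) := by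
      conv_lhs => rw [hux]
      rw [map_smul]
    have h2 : Vi (D u) = -ζ⁻¹ • Vi (D (D x)) := by rw [h1, map_smul]
    have h3 : x - Vi (Ys e) = ζ⁻¹ • Vi (D (D x)) := by
      have h4 : x - Vi (Ys e) = -Vi (D u) := by rw [hx]; abel
      rw [h4, h2, neg_smul, neg_neg]
    rw [h3, smul_smul, mul_inv_cancel₀ hζ0, one_smul]
  -- apply V
  have hVinj : ∀ w w' : F, Vi w = Vi w' → w = w' := by
    intro w w' hww
    have h1 : ∀ y : F, (1 - (a : ℂ) • (Ys ∘L Ys.adjoint)) (Vi y) = y := by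
      intro y
      have h2 : star Vi * (1 - (a : ℂ) • (Ys ∘L Ys.adjoint)) = 1 := by rw [hVs.star_eq]; exact hV1
      have h3 : star (1 - (a : ℂ) • (Ys ∘L Ys.adjoint)) = 1 - (a : ℂ) • (Ys ∘L Ys.adjoint) := by
        have h5 : star (Ys ∘L Ys.adjoint) = Ys ∘L Ys.adjoint := by
          have : star (Ys ∘L Ys.adjoint) = ContinuousLinearMap.adjoint (Ys ∘L Ys.adjoint) := rfl
          rw [this, ContinuousLinearMap.adjoint_comp, ContinuousLinearMap.adjoint_adjoint]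
        rw [star_sub, star_one, star_smul, h5]
        congr 2
        exact Complex.conj_ofReal a
      have h4 := congrArg star hV1
      rw [star_mul, h3, hVs.star_eq, star_one] at h4
      exact congrArg (fun R : F →L[ℂ] F => R y) h4
    rw [← h1 w, ← h1 w', hww]
  have hVeq : (x - ζ⁻¹ • D (D x)) = Ys e + (a : ℂ) • Ys (Ys.adjoint x) := by
    have h1 : Vi (ζ⁻¹ • D (D x)) = Vi ((x - (a : ℂ) • Ys (Ys.adjoint x)) - Ys e) := by
      rw [map_smul, hVx, smul_smul, inv_mul_cancel₀ hζ0, one_smul, map_sub, hVap]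
    have h2 := hVinj _ _ h1
    rw [h2]; abel
  set y : E := Ys.adjoint x with hy
  have hxW : x = Wi (Ys e) + (a : ℂ) • Wi (Ys y) := by
    have h1 := hWi1 x
    rw [hVeq, map_add, map_smul] at h1
    exact h1.symm
  have hyQ : y = Ys.adjoint (Wi (Ys e)) + (a : ℂ) • Ys.adjoint (Wi (Ys y)) := by
    conv_lhs => rw [hy, hxW]
    rw [map_add, map_smul]
  have hTap : ∀ w : E, T (w - (a : ℂ) • Ys.adjoint (Wi (Ys w))) = w := by
    intro w
    exact congrArg (fun R : E →L[ℂ] E => R w) hT1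
  have hay : (a : ℂ) • y = T e - e := by
    have h1 : y = T (Ys.adjoint (Wi (Ys e))) := by
      have h2 := hTap y
      have h3 : y - (a : ℂ) • Ys.adjoint (Wi (Ys y)) = Ys.adjoint (Wi (Ys e)) := by
        rw [sub_eq_iff_eq_add]; exact hyQ
      rw [h3] at h2
      exact h2.symm
    have h4 := hTap e
    rw [map_sub, map_smul, ← h1] at h4
    have h5 : T e = e + (a : ℂ) • y := sub_eq_iff_eq_add.1 h4
    rw [h5]
    abel
  have hyn : ‖y‖ ≤ (C + 1) / a * ‖e‖ := by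
    have h1 : ‖(a : ℂ) • y‖ ≤ (C + 1) * ‖e‖ := by
      rw [hay]
      calc ‖T e - e‖ ≤ ‖T e‖ + ‖e‖ := norm_sub_le _ _
        _ ≤ ‖T‖ * ‖e‖ + ‖e‖ := by gcongr; exact T.le_opNorm e
        _ ≤ C * ‖e‖ + ‖e‖ := by gcongr
        _ = (C + 1) * ‖e‖ := by ring
    rw [norm_smul, Complex.norm_real, Real.norm_of_nonneg ha.le] at h1
    rw [div_mul_eq_mul_div, le_div_iff₀ ha]
    linarith
  -- the inner product
  have hin : inner ℂ v u = -(inner ℂ e y) + inner ℂ (Ys e) (Vi (Ys e)) := by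
    have h1 : inner ℂ v u = -ζ⁻¹ * inner ℂ (Ys e) (Vi (D (D x))) := by
      conv_lhs => rw [hux]
      rw [inner_smul_right, hv, sa_inner hD, sa_inner hVs]
    rw [h1, hVx, inner_smul_right, inner_sub_right]
    have h2 : inner ℂ (Ys e) x = inner ℂ e y := by
      rw [hy, ContinuousLinearMap.adjoint_inner_right]
    rw [h2]
    field_simp
    ring
  rw [hin]
  calc ‖-(inner ℂ e y) + inner ℂ (Ys e) (Vi (Ys e))‖
      ≤ ‖-(inner ℂ e y)‖ + ‖inner ℂ (Ys e) (Vi (Ys e))‖ := norm_add_le _ _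
    _ ≤ ‖e‖ * ‖y‖ + ‖Ys e‖ * ‖Vi (Ys e)‖ := by
      rw [norm_neg]
      exact add_le_add (norm_inner_le_norm _ _) (norm_inner_le_norm _ _)
    _ ≤ ‖e‖ * ((C + 1) / a * ‖e‖) + ‖Ys e‖ * ‖Vi (Ys e)‖ := by gcongr

/-- **ABS** -/
theorem t_ABS (hPOIS : S_POIS) : S_ABS := by
  intro F E _ _ _ _ _ _ D Ys a M Vi B hD ha hM hYn hV1 hV2 hB hBp hB0 hres hfree
  have hT : IsSelfAdjoint ((a : ℂ) • (Ys ∘L Ys.adjoint)) := by
    have h1 : IsSelfAdjoint (Ys ∘L Ys.adjoint) := by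
      unfold IsSelfAdjoint
      have : star (Ys ∘L Ys.adjoint) = ContinuousLinearMap.adjoint (Ys ∘L Ys.adjoint) := rfl
      rw [this, ContinuousLinearMap.adjoint_comp, ContinuousLinearMap.adjoint_adjoint]
    unfold IsSelfAdjoint
    rw [star_smul, h1.star_eq]
    congr 1
    exact Complex.conj_ofReal _
  obtain ⟨hVs, hA⟩ := sa_DVD D _ Vi hD hT hV2
  set A : F →L[ℂ] F := D * Vi * D with hAd
  -- the generating vectors
  have hgen : ∀ (e : E) (ν : Measure ℝ), SpM A (D (Vi (Ys e))) ν → ν B = 0 := by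
    intro e ν hν
    haveI := hν.1
    refine hPOIS ν B hB hB0 fun t ht => ?_
    obtain ⟨δ, C, hδ, h⟩ := hres t ht
    exact borel_bdd D Ys a M Vi hD ha hV1 hVs hA t (hBp ht) δ C hδ h e ν hν
  -- the vectors orthogonal to them
  set N : Submodule ℂ F := (Submodule.span ℂ {x : F | ∃ (n : ℕ) (e : E),
    x = (A ^ n) (D (Vi (Ys e)))})ᗮ with hN
  have hNmem : ∀ x : F, x ∈ N ↔ ∀ (n : ℕ) (e : E), inner ℂ ((A ^ n) (D (Vi (Ys e)))) x = 0 := by
    intro x
    rw [hN, Submodule.mem_orthogonal]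
    constructor
    · intro h n e
      exact h _ (Submodule.subset_span ⟨n, e, rfl⟩)
    · intro h u hu
      induction hu using Submodule.span_induction with
      | mem u hu =>
        obtain ⟨n, e, rfl⟩ := hu
        exact h n e
      | zero => simp
      | add u w _ _ h1 h2 => rw [inner_add_left, h1, h2, add_zero]
      | smul c u _ h1 => rw [inner_smul_left, h1, mul_zero]
  have hNA : ∀ x ∈ N, A x ∈ N := by
    intro x hx
    rw [hNmem] at hx ⊢
    intro n e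
    have h1 := hx (n + 1) e
    have h2 : (A ^ (n + 1)) (D (Vi (Ys e))) = A ((A ^ n) (D (Vi (Ys e)))) := by
      rw [pow_succ']; rfl
    rw [h2, sa_inner hA] at h1
    exact h1
  have hVeq : ∀ w : F, Vi w = w + (a : ℂ) • Ys (Ys.adjoint (Vi w)) := by
    intro w
    have h1 := congrArg (fun R : F →L[ℂ] F => R w) hV2
    have h2 : Vi w - (a : ℂ) • Ys (Ys.adjoint (Vi w)) = w := h1
    exact sub_eq_iff_eq_add.1 h2
  have hND : ∀ x ∈ N, A x = D (D x) := by
    intro x hx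
    rw [hNmem] at hx
    have h1 : Ys.adjoint (Vi (D x)) = 0 := by
      rw [← inner_self_eq_zero (𝕜 := ℂ)]
      have h2 := hx 0 (Ys.adjoint (Vi (D x)))
      rw [pow_zero] at h2
      change inner ℂ (D (Vi (Ys (Ys.adjoint (Vi (D x)))))) x = 0 at h2
      rw [sa_inner hD, sa_inner hVs, ← ContinuousLinearMap.adjoint_inner_right] at h2
      exact h2
    change D (Vi (D x)) = D (D x)
    rw [hVeq, h1, map_zero, smul_zero, add_zero]
  have hDD : IsSelfAdjoint (D * D) := by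
    unfold IsSelfAdjoint
    rw [star_mul, hD.star_eq]
  have hNc : IsClosed (N : Set F) := by rw [hN]; exact Submodule.isClosed_orthogonal _
  haveI : CompleteSpace N := hNc.completeSpace_coe
  have hNnull : ∀ x ∈ N, ∀ ν : Measure ℝ, SpM A x ν → ν B = 0 := by
    intro x hx ν hν
    refine hfree x ν ((spm_lib (D * D) hDD x ν).2 ⟨hν.1, fun z hz => ?_⟩)
    -- the resolvent of `A` at `x`
    obtain ⟨w, hw⟩ : ∃ w : F, A w - z • w = x := by
      have h1 := (t_RES F A hA z hz).1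
      refine ⟨Ring.inverse (A - z • 1) x, ?_⟩
      exact congrArg (fun R : F →L[ℂ] F => R x) (Ring.mul_inverse_cancel _ h1)
    have hwN : w ∈ N := by
      obtain ⟨w₁, hw₁, w₂, hw₂, hw12⟩ := N.exists_add_mem_mem_orthogonal w
      have h1 : A w₂ ∈ Nᗮ := by
        rw [Submodule.mem_orthogonal]
        intro u hu
        rw [← sa_inner hA]
        exact (Submodule.mem_orthogonal _ _).1 hw₂ _ (hNA u hu)
      have h2 : A w₂ - z • w₂ ∈ Nᗮ := Submodule.sub_mem _ h1 (Submodule.smul_mem _ z hw₂)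
      have h3 : A w₂ - z • w₂ ∈ N := by
        have h4 : A w₂ - z • w₂ = x - (A w₁ - z • w₁) := by
          rw [← hw, hw12, map_add, smul_add]; abel
        rw [h4]
        exact Submodule.sub_mem _ hx
          (Submodule.sub_mem _ (hNA w₁ hw₁) (Submodule.smul_mem _ z hw₁))
      have h5 : A w₂ - z • w₂ = 0 := by
        have := (Submodule.mem_orthogonal _ _).1 h2 _ h3
        exact inner_self_eq_zero.1 this
      have h6 : w₂ = 0 := by
        have h7 := Pool.Agent.TH369.AN.rz_uniq A hA z hz w₂ 0 h5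
        rw [h7, map_zero]
      rw [hw12, h6, add_zero]
      exact hw₁
    have h8 : (D * D) w - z • w = x := by
      rw [← hw, hND w hwN]; rfl
    have h9 := Pool.Agent.TH369.AN.rz_uniq (D * D) hDD z hz w x h8
    have h10 := Pool.Agent.TH369.AN.rz_uniq A hA z hz w x hw
    rw [← h9, h10]
    exact ((spm_lib A hA x ν).1 hν).2 z hz
  refine null_total A hA B hB.measurableSet
    ({x : F | ∃ (n : ℕ) (e : E), x = (A ^ n) (D (Vi (Ys e)))} ∪ (N : Set F)) ?_ ?_
  · intro x hx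
    right
    change x ∈ N
    rw [hNmem]
    intro n e
    exact hx _ (Or.inl ⟨n, e, rfl⟩)
  · rintro s (⟨n, e, rfl⟩ | hs)
    · exact null_pow A hA B hB.measurableSet _ (hgen e) n
    · exact hNnull s hs

end Pool.Agent.H773.LK
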