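import Pool.Agent.H773.LK.Spec

/-! # The bad Floquet parameters (project LK, helper773) -/

set_option autoImplicit false

noncomputable section

namespace Pool.Agent.H773.LK

open MeasureTheory Filter Topology Set
open scoped ENNReal NNReal ComplexConjugate InnerProductSpace

/-- the thresholds -/
theorem thr_null (β : ℝ) (hβ : 0 < β) (B : Set ℝ) (hB : volume B = 0) :
    volume {θ : ℝ | 0 < θ ∧ θ < 1 ∧ ∃ lam ∈ B, lam ∈ Thr β θ} = 0 := by
  have h1 : {θ : ℝ | 0 < θ ∧ θ < 1 ∧ ∃ lam ∈ B, lam ∈ Thr β θ} ⊆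
      ⋃ m : ℤ, (((fun lam : ℝ => √lam / β - m) '' (B ∩ Ioi 0)) ∪
        ((fun lam : ℝ => -(√lam / β) - m) '' (B ∩ Ioi 0))) := by
    rintro θ ⟨h0, h1, lam, hlam, m, hm⟩
    refine mem_iUnion.2 ⟨m, ?_⟩
    have h2 : (m : ℝ) + θ ≠ 0 := by
      intro h3
      rcases le_or_gt 0 m with h4 | h4
      · have : (0 : ℝ) ≤ m := by exact_mod_cast h4
        linarith
      · have : (m : ℝ) ≤ -1 := by exact_mod_cast (show m ≤ -1 by omega)
        linarith
    have h5 : β * ((m : ℝ) + θ) ≠ 0 := mul_ne_zero hβ.ne' h2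
    have h6 : 0 < lam := by rw [hm]; positivity
    have h7 : √lam = |β * ((m : ℝ) + θ)| := by rw [hm, Real.sqrt_sq_eq_abs]
    rcases lt_or_gt_of_ne h5 with h8 | h8
    · right
      refine ⟨lam, ⟨hlam, h6⟩, ?_⟩
      simp only [h7, abs_of_neg h8]
      field_simp
      ring
    · left
      refine ⟨lam, ⟨hlam, h6⟩, ?_⟩
      simp only [h7, abs_of_pos h8]
      field_simp
      ring
  refine measure_mono_null h1 (measure_iUnion_null fun m => measure_union_null ?_ ?_)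
  · refine addHaar_image_eq_zero_of_differentiableOn_of_addHaar_eq_zero (μ := volume) ?_
      (measure_mono_null inter_subset_left hB)
    intro x hx
    have hx0 : x ≠ 0 := (show (0 : ℝ) < x from hx.2).ne'
    exact (((Real.hasDerivAt_sqrt hx0).differentiableAt.div_const β).sub_const _).differentiableWithinAt
  · refine addHaar_image_eq_zero_of_differentiableOn_of_addHaar_eq_zero (μ := volume) ?_
      (measure_mono_null inter_subset_left hB)
    intro x hx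
    have hx0 : x ≠ 0 := (show (0 : ℝ) < x from hx.2).ne'
    exact (((Real.hasDerivAt_sqrt hx0).differentiableAt.div_const β).neg.sub_const _).differentiableWithinAt

/-- the half strip -/
def Om : Set ℂ := {θ | 0 < θ.re ∧ θ.re < 1 ∧ 0 < θ.im}

theorem Om_open : IsOpen Om := by
  unfold Om
  have h1 : IsOpen {θ : ℂ | 0 < θ.re} := isOpen_lt continuous_const Complex.continuous_re
  have h2 : IsOpen {θ : ℂ | θ.re < 1} := isOpen_lt Complex.continuous_re continuous_const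
  have h3 : IsOpen {θ : ℂ | 0 < θ.im} := isOpen_lt continuous_const Complex.continuous_im
  exact h1.inter (h2.inter h3)

theorem Om_convex : Convex ℝ Om := by
  intro x hx y hy s t hs ht hst
  obtain ⟨hx1, hx2, hx3⟩ := hx
  obtain ⟨hy1, hy2, hy3⟩ := hy
  have hre : (s • x + t • y).re = s * x.re + t * y.re := by simp
  have him : (s • x + t • y).im = s * x.im + t * y.im := by simp
  unfold Om
  simp only [mem_ofPred_eq, hre, him]
  rcases hs.eq_or_lt with h | h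
  · have : t = 1 := by linarith
    subst this
    simp only [← h]
    refine ⟨by linarith, by linarith, by linarith⟩
  · refine ⟨?_, ?_, ?_⟩
    · have := mul_pos h hx1
      have := mul_nonneg ht hy1.le
      linarith
    · have h4 := mul_lt_mul_of_pos_left hx2 h
      have h5 := mul_le_mul_of_nonneg_left hy2.le ht
      linarith
    · have := mul_pos h hx3
      have := mul_nonneg ht hy3.le
      linarith

/-- in the half strip the bad points have no interior -/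
theorem strip (hKMI : S_KMI) (hFAM : S_FAM) (hFRK : S_FRK) (hDET : S_DET) (hDEC : S_DEC)
    (L β : ℝ) (X y : ℝ → ℝ) (hC : Crv L β X y) (a : ℝ) (lam : ℝ) :
    ∀ θ₀ ∈ Om, ¬ ∀ᶠ θ in 𝓝 θ₀, ¬ IsUnit (1 - (a : ℂ) • KK L X y (kmi β θ lam)) := by
  set u : Set ℂ := {θ₀ | ∀ᶠ θ in 𝓝 θ₀, ¬ IsUnit (1 - (a : ℂ) • KK L X y (kmi β θ lam))} with hu
  have huo : IsOpen u := by
    rw [isOpen_iff_mem_nhds]
    intro x hx
    exact (eventually_eventually_nhds.2 hx)
  have hcl : closure u ∩ Om ⊆ u := by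
    rintro θ₀ ⟨h1, h2, h3, h4⟩
    obtain ⟨r, c₀, C₀, hr, hc₀, hdiff, hadm⟩ := hKMI β θ₀ lam hC.β_pos h2 h3 h4
    have h5 : DifferentiableOn ℂ (fun θ => (a : ℂ) • KK L X y (kmi β θ lam))
        (Metric.ball θ₀ r) :=
      (hFAM L β X y hC c₀ C₀ hc₀ (Metric.ball θ₀ r) (fun m θ => kmi β θ lam m)
        Metric.isOpen_ball hdiff hadm).const_smul (a : ℂ)
    have h6 : FRk ((a : ℂ) • KK L X y (kmi β θ₀ lam)) :=
      hFRK L β X y hC c₀ C₀ hc₀ _ (hadm θ₀ (Metric.mem_ball_self hr)) a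
    obtain ⟨r', δ', C', D, hr', hr'r, hδ', hδδ, hD1, hD2, hD3⟩ :=
      hDET (EL L) θ₀ 0 r 1 0 (fun θ _ => (a : ℂ) • KK L X y (kmi β θ lam)) hr one_pos
        (fun _ _ => h5) (fun θ _ l l' _ _ => by simp) h6
    have hd : DifferentiableOn ℂ (fun θ => D θ 0) (Metric.ball θ₀ r') :=
      hD1 0 (by simpa using hδ')
    have hiff : ∀ θ ∈ Metric.ball θ₀ r',
        (IsUnit (1 - (a : ℂ) • KK L X y (kmi β θ lam)) ↔ D θ 0 ≠ 0) := fun θ hθ =>
      hD3 θ hθ 0 (by simpa using hδ')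
    obtain ⟨θ₁, hθ₁, hθ₁'⟩ : (Metric.ball θ₀ r' ∩ u).Nonempty := by
      rw [mem_closure_iff] at h1
      exact h1 _ Metric.isOpen_ball (Metric.mem_ball_self hr')
    have hz : (fun θ => D θ 0) =ᶠ[𝓝 θ₁] 0 := by
      filter_upwards [hθ₁', Metric.isOpen_ball.mem_nhds hθ₁] with θ h7 h8
      by_contra h9
      exact h7 ((hiff θ h8).2 h9)
    have han : AnalyticOnNhd ℂ (fun θ => D θ 0) (Metric.ball θ₀ r') :=
      hd.analyticOnNhd Metric.isOpen_ball
    have h10 := han.eqOn_zero_of_preconnected_of_eventuallyEq_zero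
      (convex_ball θ₀ r').isPreconnected hθ₁ hz
    change ∀ᶠ θ in 𝓝 θ₀, ¬ IsUnit (1 - (a : ℂ) • KK L X y (kmi β θ lam))
    filter_upwards [Metric.isOpen_ball.mem_nhds (Metric.mem_ball_self hr')] with θ h11 h12
    exact (hiff θ h11).1 h12 (h10 h11)
  intro θ₀ hθ₀ hbad
  have hsub : Om ⊆ u :=
    (Om_convex.isPreconnected).subset_of_closure_inter_subset huo ⟨θ₀, hθ₀, hbad⟩ hcl
  -- large imaginary part
  have h1 := hDEC L β X y hC lam
  have h2 : ∀ᶠ τ : ℝ in atTop,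
      ‖KK L X y (kmi β ((1 / 2 : ℝ) + τ * Complex.I) lam)‖ < 1 / (2 * (|a| + 1)) := by
    have h3 := h1.norm
    rw [norm_zero] at h3
    exact h3.eventually_lt_const (by positivity)
  obtain ⟨τ, h4, h5⟩ := (h2.and (eventually_gt_atTop 0)).exists
  have h6 : ((1 / 2 : ℝ) + τ * Complex.I : ℂ) ∈ Om := by
    unfold Om
    simp
    constructor
    · norm_num
    · exact h5
  have h7 := (hsub h6).self_of_nhds
  apply h7
  refine isUnit_one_sub_of_norm_lt_one ?_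
  rw [norm_smul, Complex.norm_real, Real.norm_eq_abs]
  calc |a| * ‖KK L X y (kmi β ((1 / 2 : ℝ) + τ * Complex.I) lam)‖
      ≤ |a| * (1 / (2 * (|a| + 1))) := by gcongr
    _ = |a| / (|a| + 1) / 2 := by field_simp
    _ ≤ 1 / 2 := by
      gcongr
      rw [div_le_one (by positivity)]
      linarith
    _ < 1 := by norm_num

/-- near a point that is not a threshold -/
theorem box (hKLOC : S_KLOC) (hKMI : S_KMI) (hFAM : S_FAM) (hLIP : S_LIP) (hFRK : S_FRK)
    (hDET : S_DET) (hDEC : S_DEC) (hNULL : S_NULL)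
    (L β : ℝ) (X y : ℝ → ℝ) (hC : Crv L β X y) (a : ℝ) (B : Set ℝ) (hB : volume B = 0)
    (θ₀ lam₀ : ℝ) (h0 : 0 < θ₀) (h1 : θ₀ < 1) (hT : lam₀ ∉ Thr β θ₀) :
    ∃ r δ : ℝ, 0 < r ∧ 0 < δ ∧ volume {θ : ℝ | |θ - θ₀| < r ∧ ∃ lam ∈ B, |lam - lam₀| < δ ∧
      ¬ IsUnit (1 - (a : ℂ) • KK L X y (kmi β θ lam))} = 0 := by
  obtain ⟨r, δ, c₀, C₀, C, κ, hr, hδ, hc₀, hCp, hball, hthr, hdiff, hκ⟩ :=
    hKLOC β θ₀ lam₀ hC.β_pos h0 h1 hT
  obtain ⟨C', hC', hLip⟩ := hLIP L β X y hC c₀ C₀ hc₀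
  have hself : (θ₀ : ℂ) ∈ Metric.ball (θ₀ : ℂ) r := Metric.mem_ball_self hr
  have hlself : |lam₀ - lam₀| < δ := by simpa using hδ
  obtain ⟨r', δ', C'', D, hr', hr'r, hδ', hδδ, hD1, hD2, hD3⟩ :=
    hDET (EL L) (θ₀ : ℂ) lam₀ r δ (|a| * (C' * C))
      (fun θ lam => (a : ℂ) • KK L X y (fun m => κ m θ lam)) hr hδ
      (fun lam hlam => (hFAM L β X y hC c₀ C₀ hc₀ (Metric.ball (θ₀ : ℂ) r)
        (fun m θ => κ m θ lam) Metric.isOpen_ball (hdiff lam hlam)
        (fun θ hθ => (hκ θ hθ lam hlam).1)).const_smul (a : ℂ))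
      (by
        intro θ hθ lam lam' hlam hlam'
        rw [← smul_sub, norm_smul, Complex.norm_real, Real.norm_eq_abs]
        have h2 := hLip (fun m => κ m θ lam) (fun m => κ m θ lam') (C * |lam - lam'|)
          (hκ θ hθ lam hlam).1 (hκ θ hθ lam' hlam').1 ((hκ θ hθ lam hlam).2.1 lam' hlam')
        calc |a| * ‖KK L X y (fun m => κ m θ lam) - KK L X y (fun m => κ m θ lam')‖
            ≤ |a| * (C' * (C * |lam - lam'|)) := by gcongr
          _ = |a| * (C' * C) * |lam - lam'| := by ring)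
      (hFRK L β X y hC c₀ C₀ hc₀ _ (hκ θ₀ hself lam₀ hlself).1 a)
  have hsub : Metric.ball (θ₀ : ℂ) r' ⊆ Metric.ball (θ₀ : ℂ) r := Metric.ball_subset_ball hr'r
  have hkmi : ∀ θ ∈ Metric.ball (θ₀ : ℂ) r', ∀ lam : ℝ, |lam - lam₀| < δ' → 0 ≤ θ.im →
      (fun m => κ m θ lam) = kmi β θ lam := by
    intro θ hθ lam hlam him
    funext m
    exact (hκ θ (hsub hθ) lam (hlam.trans_le hδδ)).2.2 him m
  refine ⟨r', δ', hr', hδ', ?_⟩
  have h2 := hNULL θ₀ lam₀ r' δ' C'' D hr' hδ' hD1 hD2 ?_ B hB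
  · refine measure_mono_null ?_ h2
    rintro θ ⟨h3, lam, h4, h5, h6⟩
    refine ⟨h3, lam, h4, h5, ?_⟩
    by_contra h7
    have hθ : (θ : ℂ) ∈ Metric.ball (θ₀ : ℂ) r' := by
      rw [Metric.mem_ball, dist_eq_norm, ← Complex.ofReal_sub, Complex.norm_real]
      exact h3
    have h8 := (hD3 θ hθ lam h5).2 h7
    rw [hkmi θ hθ lam h5 (by simp)] at h8
    exact h6 h8
  · intro lam hlam
    by_contra hcon
    push Not at hcon
    -- a point in the half strip
    set θ₁ : ℂ := θ₀ + (r' / 2 : ℝ) * Complex.I with hθ₁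
    have h3 : θ₁ ∈ Metric.ball (θ₀ : ℂ) r' := by
      rw [Metric.mem_ball, dist_eq_norm, hθ₁, add_sub_cancel_left, norm_mul, Complex.norm_I,
        Complex.norm_real, Real.norm_of_nonneg (by positivity)]
      linarith
    have h4 : θ₁ ∈ Om := by
      have h5 := hball (hsub h3)
      exact ⟨h5.1, h5.2, by simp [hθ₁]; positivity⟩
    refine strip hKMI hFAM hFRK hDET hDEC L β X y hC a lam θ₁ h4 ?_
    filter_upwards [Metric.isOpen_ball.mem_nhds h3, Om_open.mem_nhds h4] with θ h5 h6 h7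
    have h8 := hcon θ h5
    rw [← hkmi θ h5 lam hlam h6.2.2.le] at h7
    exact (hD3 θ h5 lam hlam).1 h7 h8

/-- **BAD** -/
theorem t_BAD (hFRED : S_FRED) (hKPL : S_KPL) (hOPEN : S_OPEN) (hKLOC : S_KLOC) (hKMI : S_KMI)
    (hFAM : S_FAM) (hLIP : S_LIP) (hFRK : S_FRK) (hDET : S_DET) (hDEC : S_DEC)
    (hNULL : S_NULL) : S_BAD := by
  intro L β X y hC a B ha hB
  -- the good set of pairs
  set S : Set (ℝ × ℝ) := {p | 0 < p.1 ∧ p.1 < 1 ∧ p.2 ∉ Thr β p.1} with hS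
  choose! r δ hr hδ hnull using fun (p : ℝ × ℝ) (hp : p ∈ S) =>
    box hKLOC hKMI hFAM hLIP hFRK hDET hDEC hNULL L β X y hC a B hB p.1 p.2 hp.1 hp.2.1 hp.2.2
  obtain ⟨t, htS, htc, hcov⟩ := TopologicalSpace.countable_cover_nhdsWithin
    (f := fun p : ℝ × ℝ => {q : ℝ × ℝ | |q.1 - p.1| < r p ∧ |q.2 - p.2| < δ p}) (s := S) (by
      intro p hp
      refine mem_nhdsWithin_of_mem_nhds ?_
      have h1 : IsOpen {q : ℝ × ℝ | |q.1 - p.1| < r p ∧ |q.2 - p.2| < δ p} := by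
        have h2 : IsOpen {q : ℝ × ℝ | |q.1 - p.1| < r p} :=
          isOpen_lt (by fun_prop) continuous_const
        have h3 : IsOpen {q : ℝ × ℝ | |q.2 - p.2| < δ p} :=
          isOpen_lt (by fun_prop) continuous_const
        exact h2.inter h3
      exact h1.mem_nhds ⟨by simpa using hr p hp, by simpa using hδ p hp⟩)
  have hsub : Bad L β X y a B ⊆ {θ : ℝ | 0 < θ ∧ θ < 1 ∧ ∃ lam ∈ B, lam ∈ Thr β θ} ∪
      ⋃ p ∈ t, {θ : ℝ | |θ - p.1| < r p ∧ ∃ lam ∈ B, |lam - p.2| < δ p ∧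
        ¬ IsUnit (1 - (a : ℂ) • KK L X y (kmi β θ lam))} := by
    rintro θ ⟨h0, h1, lam, hlam, h2⟩
    by_cases h3 : lam ∈ Thr β θ
    · exact Or.inl ⟨h0, h1, lam, hlam, h3⟩
    · right
      have h4 : ¬ IsUnit (1 - (a : ℂ) • KK L X y (kpl β θ lam)) := h2.resolve_left h3
      have h5 : ((θ, lam) : ℝ × ℝ) ∈ S := ⟨h0, h1, h3⟩
      obtain ⟨p, hp, h6⟩ := mem_iUnion₂.1 (hcov h5)
      refine mem_iUnion₂.2 ⟨p, hp, h6.1, lam, hlam, h6.2, ?_⟩
      -- an eigenvector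
      obtain ⟨δ₁, c₀, C₀, C, hδ₁, hc₀, -, h7⟩ := (hKPL β θ hC.β_pos h0 h1).1 lam h3
      have h8 := (h7 (lam : ℂ) (by simp) (by simpa using hδ₁)).1
      have h9 := hFRK L β X y hC c₀ C₀ hc₀ _ h8 a
      have h10 : ∃ e : EL L, ((a : ℂ) • KK L X y (kpl β θ lam)) e = e ∧ e ≠ 0 := by
        by_contra hcon
        push Not at hcon
        exact h4 (hFRED (EL L) _ h9 hcon)
      obtain ⟨e, he, he0⟩ := h10
      have h11 := hOPEN L β X y hC θ lam a h0 h1 h3 e he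
      intro hu
      obtain ⟨u, hu⟩ := hu
      have h12 : (1 - (a : ℂ) • KK L X y (kmi β θ lam)) e = 0 := by
        simp only [ContinuousLinearMap.sub_apply, ContinuousLinearMap.one_apply,
          ContinuousLinearMap.smul_apply, h11, sub_self]
      apply he0
      have h13 : ((↑u⁻¹ : EL L →L[ℂ] EL L) * (u : EL L →L[ℂ] EL L)) e = e := by
        rw [Units.inv_mul]; rfl
      rw [← h13, hu]
      have h14 : ((↑u⁻¹ : EL L →L[ℂ] EL L) * (1 - (a : ℂ) • KK L X y (kmi β θ lam))) e =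
        (↑u⁻¹ : EL L →L[ℂ] EL L) ((1 - (a : ℂ) • KK L X y (kmi β θ lam)) e) := rfl
      rw [h14, h12, map_zero]
  refine measure_mono_null hsub (measure_union_null (thr_null β hC.β_pos B hB) ?_)
  rw [measure_biUnion_null_iff htc]
  intro p hp
  exact hnull p (htS hp)

end Pool.Agent.H773.LK
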