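import Pool.Agent.H773.LK.Spec2

/-! # The fibre theorem (project LK, helper773) -/

set_option autoImplicit false

noncomputable section

namespace Pool.Agent.H773.LK

open MeasureTheory Filter Topology Set
open scoped ENNReal NNReal ComplexConjugate InnerProductSpace

/-- invertible operators: the inverse is locally bounded -/
theorem unit_nhds {E : Type} [NormedAddCommGroup E] [InnerProductSpace ℂ E] [CompleteSpace E]
    (T : E →L[ℂ] E) (h : IsUnit T) : ∃ ε C : ℝ, 0 < ε ∧ ∀ T' : E →L[ℂ] E, ‖T' - T‖ < ε →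
      ∃ S : E →L[ℂ] E, S * T' = 1 ∧ T' * S = 1 ∧ ‖S‖ ≤ C := by
  obtain ⟨u, rfl⟩ := h
  have h1 : ∀ᶠ x in 𝓝 (u : E →L[ℂ] E), IsUnit x := by
    have := u.nhds
    filter_upwards [this] with x hx using hx
  have h2 : ∀ᶠ x in 𝓝 (u : E →L[ℂ] E), ‖Ring.inverse x‖ < ‖Ring.inverse (u : E →L[ℂ] E)‖ + 1 := by
    have h3 := (NormedRing.inverse_continuousAt u).norm
    exact h3.eventually_lt_const (lt_add_one _)
  obtain ⟨ε, hε, h3⟩ := Metric.eventually_nhds_iff.1 (h1.and h2)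
  refine ⟨ε, ‖Ring.inverse (u : E →L[ℂ] E)‖ + 1, hε, fun T' hT' => ?_⟩
  obtain ⟨h4, h5⟩ := h3 (y := T') (by rwa [dist_eq_norm])
  exact ⟨Ring.inverse T', Ring.inverse_mul_cancel _ h4, Ring.mul_inverse_cancel _ h4, h5.le⟩

theorem mop_inv (β M θ : ℝ) (D Wi : FF →L[ℂ] FF) (z : ℂ) (hM : 0 < M) (hz : 0 < z.im)
    (hD : IsD β M θ D) (h : (1 - (z + M) • (D * D)) * Wi = 1) :
    IsMop (fun ξ => ((ww β θ ξ + M : ℝ) : ℂ) / (((ww β θ ξ : ℝ) : ℂ) - z)) Wi := by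
  intro v
  set u := Wi v with hu
  have h1 : u - (z + M) • D (D u) = v := by
    have := congrArg (fun R : FF →L[ℂ] FF => R v) h
    simpa using this
  have h2 : ((u - (z + M) • D (D u) : FF) : ℤ × ℝ → ℂ) =ᵐ[mZR] v := by rw [h1]
  filter_upwards [h2, Lp.coeFn_sub u ((z + M) • D (D u)), Lp.coeFn_smul (z + M) (D (D u)),
    hD (D u), hD u] with ξ h3 h4 h5 h6 h7
  rw [h3] at h4
  rw [h4]
  simp only [Pi.sub_apply, h5, Pi.smul_apply, smul_eq_mul, h6, h7]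
  have hw : 0 ≤ ww β θ ξ := by unfold ww; positivity
  have hwM : 0 < ww β θ ξ + M := by linarith
  have hs : ((√(ww β θ ξ + M) : ℝ) : ℂ) * ((√(ww β θ ξ + M) : ℝ) : ℂ) =
      ((ww β θ ξ + M : ℝ) : ℂ) := by
    rw [← Complex.ofReal_mul, Real.mul_self_sqrt hwM.le]
  have hs0 : ((√(ww β θ ξ + M) : ℝ) : ℂ) ≠ 0 := by
    exact_mod_cast (Real.sqrt_pos.2 hwM).ne'
  have hwz : ((ww β θ ξ : ℝ) : ℂ) - z ≠ 0 := by
    intro h0
    have := congrArg Complex.im h0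
    simp at this
    linarith
  have hwMc : ((ww β θ ξ + M : ℝ) : ℂ) ≠ 0 := by exact_mod_cast hwM.ne'
  have h8 : ((1 / √(ww β θ ξ + M) : ℝ) : ℂ) * (((1 / √(ww β θ ξ + M) : ℝ) : ℂ) * u ξ) =
      u ξ / ((ww β θ ξ + M : ℝ) : ℂ) := by
    rw [← hs]
    push_cast
    field_simp
  rw [h8, eq_comm, div_mul_eq_mul_div, div_eq_iff hwz]
  push_cast at hwMc ⊢
  field_simp
  ring

/-- **FIB** -/
theorem t_FIB (hABS : S_ABS) (hFREE : S_FREE) (hYWY : S_YWY) (hKPL : S_KPL) (hLIP : S_LIP) :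
    S_FIB := by
  intro L β X y hC a M θ Ys D Vi B ha hM hθ0 hθ1 hDs hD hYs hYn hV1 hV2 hB hBp hB0 hbad v ν hν
  refine hABS FF (EL L) D Ys a M Vi B hDs ha hM hYn hV1 hV2 hB hBp hB0 ?_
    (fun v ν hν => hFREE β M θ D hC.β_pos hM hDs hD B v ν hB hBp hB0 hν) v ν hν
  intro t ht
  have hlam : (1 / t - M) ∈ ((fun t => 1 / t - M) '' B) := ⟨t, ht, rfl⟩
  set lam : ℝ := 1 / t - M with hlamd
  have h1 : lam ∉ Thr β θ ∧ IsUnit (1 - (a : ℂ) • KK L X y (kpl β θ lam)) := by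
    by_contra hcon
    apply hbad
    refine ⟨hθ0, hθ1, lam, hlam, ?_⟩
    by_cases h2 : lam ∈ Thr β θ
    · exact Or.inl h2
    · exact Or.inr fun h3 => hcon ⟨h2, h3⟩
  obtain ⟨h1, h2⟩ := h1
  obtain ⟨δ, c₀, C₀, C, hδ, hc₀, hCp, h3⟩ := (hKPL β θ hC.β_pos hθ0 hθ1).1 lam h1
  obtain ⟨C', hC', h4⟩ := hLIP L β X y hC c₀ C₀ hc₀
  obtain ⟨ε, R, hε, h5⟩ := unit_nhds _ h2
  have hden : 0 < a * C' * C + 1 := by positivity
  refine ⟨min δ (ε / (a * C' * C + 1)), R, lt_min hδ (by positivity), ?_⟩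
  intro z Wi hz hzl hW1 hW2
  have hz1 : ‖z - lam‖ < δ := lt_of_lt_of_le hzl (min_le_left _ _)
  have hz2 : ‖z - lam‖ < ε / (a * C' * C + 1) := lt_of_lt_of_le hzl (min_le_right _ _)
  have h6 := h3 z hz.le hz1
  have h7 := h3 (lam : ℂ) (by simp) (by simpa using hδ)
  have h8 := h4 _ _ (C * ‖z - lam‖) h6.1 h7.1 h6.2
  have h9 : ‖(1 - (a : ℂ) • KK L X y (kpl β θ z)) - (1 - (a : ℂ) • KK L X y (kpl β θ lam))‖ < ε := by
    have h10 : (1 - (a : ℂ) • KK L X y (kpl β θ z)) - (1 - (a : ℂ) • KK L X y (kpl β θ lam)) =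
        -((a : ℂ) • (KK L X y (kpl β θ z) - KK L X y (kpl β θ lam))) := by
      rw [smul_sub]; abel
    rw [h10, norm_neg, norm_smul, Complex.norm_real, Real.norm_of_nonneg ha.le]
    calc a * ‖KK L X y (kpl β θ z) - KK L X y (kpl β θ lam)‖ ≤ a * (C' * (C * ‖z - lam‖)) := by
          gcongr
      _ ≤ (a * C' * C + 1) * ‖z - lam‖ := by nlinarith [norm_nonneg (z - lam)]
      _ < ε := by
        rw [lt_div_iff₀ hden] at hz2
        linarith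
  obtain ⟨S, hS1, -, hS3⟩ := h5 _ h9
  refine ⟨S, ?_, hS3⟩
  rw [hYWY L β X y hC M θ z Ys Wi hM hθ0 hθ1 hz hYs (mop_inv β M θ D Wi z hM hz hD hW2)]
  exact hS1

end Pool.Agent.H773.LK
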