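import Pool.Agent.H773.LK.Spec3
import Pool.Graph.R_seed8.H792R3.SpecMeas
import Pool.Graph.R_seed8.TH369.SJ.UQ
import Pool.Graph.R_seed8.TH369.AN.RES

/-! # Resolvents and spectral measures from the library (project LK, helper773) -/

set_option autoImplicit false

noncomputable section

namespace Pool.Agent.H773.LK

open MeasureTheory Filter Topology Set
open scoped ENNReal NNReal ComplexConjugate InnerProductSpace

theorem t_SPX : S_SPX := fun H _ _ _ B hB f => by
  obtain ⟨μ, h1, h2⟩ := Pool.Agent.H792R3.exists_specMeas B hB f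
  exact ⟨μ, h1, h2⟩

theorem t_STU : S_STU := fun μ ν _ _ h => Pool.Agent.TH369.SJ.UQ.eq_of_borel μ ν h

theorem t_RES : S_RES := by
  intro F _ _ _ A hA ζ hζ
  refine ⟨Pool.Agent.H12R2.And.isUnit_sub hA hζ, fun v u ν hν h => ?_⟩
  haveI := hν.1
  have h1 := Pool.Agent.TH369.AN.rz_uniq A hA ζ hζ u v h
  have h2 := Pool.Agent.TH369.AN.spec_borel A hA v ν hν.2 ζ hζ
  rw [h1, h2]
  simp only [one_div]

/-- relation with the spectral measures of the library -/
theorem spm_lib {F : Type} [NormedAddCommGroup F] [InnerProductSpace ℂ F] [CompleteSpace F]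
    (A : F →L[ℂ] F) (hA : IsSelfAdjoint A) (v : F) (ν : Measure ℝ) :
    SpM A v ν ↔ Pool.Agent.TH369.MU.SpM A v ν := by
  constructor
  · intro h
    haveI := h.1
    exact ⟨h.1, fun z hz => Pool.Agent.TH369.AN.spec_borel A hA v ν h.2 z hz⟩
  · intro h
    exact ⟨h.1, fun f hf => Pool.Agent.TH369.SJ.spm_cfc A hA v ν h f hf⟩

end Pool.Agent.H773.LK
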