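import Pool.Agent.H773.LK.Main
import Pool.Agent.H773.LK.Bad
import Pool.Agent.H773.LK.Fib
import Pool.Agent.H773.LK.Abs
import Pool.Agent.H773.LK.Res
import Pool.Agent.H106.LK.KLOC
import Pool.Agent.H155.LK.CUR
import Pool.Agent.H155.LK.DEC
import Pool.Agent.H196.LK.KPL
import Pool.Agent.H200.LK.TRI
import Pool.Agent.H216.LK.LNK
import Pool.Agent.H225.LK.FRED
import Pool.Agent.H230.LK.GEO
import Pool.Agent.H236.LK773.OPEN
import Pool.Agent.H236.LK773.YS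
import Pool.Agent.H236.LK773.YWY
import Pool.Agent.H249.LK.LIPFAM
import Pool.Agent.H251.LK.KUN
import Pool.Agent.H263.LK.DISP
import Pool.Agent.H282.LK.DI
import Pool.Agent.H286.LK.VPH
import Pool.Agent.H292.LK.Mode
import Pool.Agent.H293.LK.NULL
import Pool.Agent.H302.LK.SAB
import Pool.Agent.H302.LK.SMX
import Pool.Agent.H328.LK.KOP
import Pool.Agent.H338.LK.CRV
import Pool.Agent.H34.LK.Ser
import Pool.Agent.H353.LK.CONV
import Pool.Agent.H597.LK.DOP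
import Pool.Agent.H603.LK.YAD
import Pool.Agent.H619.LK.DET
import Pool.Agent.H671.LK.KMI
import Pool.Agent.H690.LK.Zak
import Pool.Agent.H726.LK.FREE
import Pool.Agent.H747.LK.PTM
import Pool.Agent.H860.LK.POIS

/-! # Leaky periodic curves: the main theorem (project LK) -/

set_option autoImplicit false

noncomputable section

namespace Pool.Agent.H773.LK

theorem p_KOP : S_KOP := Pool.Agent.H328.LK.t_KOP

theorem p_MODE : S_MODE := Pool.Agent.H292.LK.t_MODE p_KOP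

theorem p_CONV : S_CONV :=
  Pool.Agent.H353.LK.t_CONV p_KOP p_MODE t_SER Pool.Agent.H230.LK.t_GEO

theorem p_LIP : S_LIP := Pool.Agent.H249.LK.t_LIP p_MODE p_CONV

theorem p_FAM : S_FAM := Pool.Agent.H249.LK.t_FAM p_MODE p_CONV

theorem p_FRK : S_FRK := Pool.Agent.H249.LK.t_FRK p_KOP p_CONV

theorem p_KPL : S_KPL := Pool.Agent.H196.LKKPL.t_KPL

theorem p_KMI : S_KMI := Pool.Agent.H671.LK.t_KMI

theorem p_DEC : S_DEC :=
  Pool.Agent.H155.LK.t_DEC p_KOP p_MODE t_SER Pool.Agent.H230.LK.t_GEO p_CONV p_KMI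

theorem p_OPEN : S_OPEN := Pool.Agent.H236.LK773.t_OPEN p_KOP p_CONV p_KPL

theorem p_BAD : S_BAD :=
  t_BAD Pool.Agent.H225.LK.t_FRED p_KPL p_OPEN Pool.Agent.H106.LK.t_KLOC p_KMI p_FAM p_LIP p_FRK
    Pool.Agent.H619.LK.t_DET p_DEC Pool.Agent.H293.LK.t_NULL

theorem p_YWY : S_YWY := Pool.Agent.H236.LK773.t_YWY p_KOP p_CONV p_KPL

theorem p_FIB : S_FIB :=
  t_FIB (t_ABS Pool.Agent.H860.LK.t_POIS) Pool.Agent.H726.LK.t_FREE p_YWY p_KPL p_LIP

theorem p_PTM : S_PTM := Pool.Agent.H747.LKPTM.t_PTM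

/-- the main theorem -/
theorem main : S_MAIN2 :=
  t_MAIN Pool.Agent.H338.LK.t_CRV (Pool.Agent.H251.LK.t_KUN p_PTM Pool.Agent.H155.LK.t_CUR)
    (Pool.Agent.H236.LK773.t_YS p_KOP p_CONV) Pool.Agent.H597.LK.t_DOP Pool.Agent.H282.LK.t_DI
    (Pool.Agent.H286.LK.t_VPH p_PTM)
    (Pool.Agent.H200.LK.t_TRI Pool.Agent.H603.LK.t_YAD (t_ZAK p_PTM))
    Pool.Agent.H216.LK.t_LNK Pool.Agent.H302.LK.t_SAB (Pool.Agent.H302.LK.t_SMX t_RES) t_SPX t_STU
    p_FIB p_BAD (Pool.Agent.H263.LK.t_DISP Pool.Agent.H282.LK.t_DI)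

end Pool.Agent.H773.LK
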