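import Pool.Agent.H773.LK.Spec3

/-! # Assembly of the main theorem (project LK, helper773) -/

set_option autoImplicit false

noncomputable section

namespace Pool.Agent.H773.LK

open MeasureTheory Filter Topology Set
open scoped ENNReal NNReal ComplexConjugate InnerProductSpace SchwartzMap FourierTransform

/-- `cls` as a linear map -/
def clsL : Sc →ₗ[ℂ] HS where
  toFun := cls
  map_add' φ ψ := by
    unfold cls
    exact (SchwartzMap.toLpCLM ℂ (E := Pl) ℂ 2 (volume : Measure Pl)).map_add φ ψ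
  map_smul' c φ := by
    unfold cls
    exact (SchwartzMap.toLpCLM ℂ (E := Pl) ℂ 2 (volume : Measure Pl)).map_smul c φ

theorem isUnit_one_sub_of {F : Type} [NormedAddCommGroup F] [InnerProductSpace ℂ F]
    [CompleteSpace F] (T : F →L[ℂ] F) (h : ‖T‖ ≤ 1 / 2) : IsUnit (1 - T) := by
  exact isUnit_one_sub_of_norm_lt_one (by linarith)

theorem norm_inv_le {F : Type} [NormedAddCommGroup F] [InnerProductSpace ℂ F]
    [CompleteSpace F] (T Vi : F →L[ℂ] F) (h : ‖T‖ ≤ 1 / 2) (h1 : (1 - T) * Vi = 1) :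
    ‖Vi‖ ≤ 2 := by
  have h2 : Vi = 1 + T * Vi := by
    rw [sub_mul, one_mul] at h1
    rw [← h1]; abel
  have h3 : ‖Vi‖ ≤ 1 + 1 / 2 * ‖Vi‖ := by
    calc ‖Vi‖ = ‖1 + T * Vi‖ := by rw [← h2]
      _ ≤ ‖(1 : F →L[ℂ] F)‖ + ‖T * Vi‖ := norm_add_le _ _
      _ ≤ 1 + ‖T‖ * ‖Vi‖ := by
        refine add_le_add ?_ (norm_mul_le _ _)
        exact ContinuousLinearMap.norm_id_le
      _ ≤ 1 + 1 / 2 * ‖Vi‖ := by gcongr
  linarith

theorem norm_bYY {F E : Type} [NormedAddCommGroup F] [InnerProductSpace ℂ F]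
    [CompleteSpace F] [NormedAddCommGroup E] [InnerProductSpace ℂ E] [CompleteSpace E]
    (Ys : E →L[ℂ] F) (b : ℝ) (hb : 0 < b) (h : b * ‖Ys‖ ^ 2 ≤ 1 / 2) :
    ‖(b : ℂ) • (Ys ∘L Ys.adjoint)‖ ≤ 1 / 2 := by
  rw [norm_smul, Complex.norm_real, Real.norm_of_nonneg hb.le]
  have h1 : ‖Ys ∘L Ys.adjoint‖ ≤ ‖Ys‖ ^ 2 := by
    refine (ContinuousLinearMap.opNorm_comp_le _ _).trans ?_
    rw [LinearIsometryEquiv.norm_map, sq]
  nlinarith


theorem sa_bYY {F E : Type} [NormedAddCommGroup F] [InnerProductSpace ℂ F]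
    [CompleteSpace F] [NormedAddCommGroup E] [InnerProductSpace ℂ E] [CompleteSpace E]
    (Ys : E →L[ℂ] F) (b : ℝ) : IsSelfAdjoint ((b : ℂ) • (Ys ∘L Ys.adjoint)) := by
  have h1 : IsSelfAdjoint (Ys ∘L Ys.adjoint) := by
    unfold IsSelfAdjoint
    have : star (Ys ∘L Ys.adjoint) = ContinuousLinearMap.adjoint (Ys ∘L Ys.adjoint) := rfl
    rw [this, ContinuousLinearMap.adjoint_comp, ContinuousLinearMap.adjoint_adjoint]
  unfold IsSelfAdjoint
  rw [star_smul, h1.star_eq]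
  congr 1
  exact Complex.conj_ofReal _

/-- the abstract operator `D (1 - T)⁻¹ D` -/
theorem core_facts {F : Type} [NormedAddCommGroup F] [InnerProductSpace ℂ F] [CompleteSpace F]
    (D T Vi : F →L[ℂ] F) (hD : IsSelfAdjoint D) (hDi : Function.Injective D)
    (hT : IsSelfAdjoint T) (hTn : ‖T‖ ≤ 1 / 2) (h1 : Vi * (1 - T) = 1) (h2 : (1 - T) * Vi = 1) :
    IsSelfAdjoint (D * Vi * D) ∧ Function.Injective (D * Vi * D) ∧
      ∀ f, 0 ≤ (⟪(D * Vi * D) f, f⟫_ℂ).re := by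
  have hVs : IsSelfAdjoint Vi := by
    have h3 : star Vi * (1 - T) = 1 := by
      have := congrArg star h2
      rw [star_mul, star_sub, star_one, hT.star_eq] at this
      exact this
    have h4 : star Vi = Vi := by
      calc star Vi = star Vi * ((1 - T) * Vi) := by rw [h2, mul_one]
        _ = (star Vi * (1 - T)) * Vi := by rw [mul_assoc]
        _ = Vi := by rw [h3, one_mul]
    exact h4
  refine ⟨?_, ?_, ?_⟩
  · unfold IsSelfAdjoint
    rw [star_mul, star_mul, hD.star_eq, hVs.star_eq, mul_assoc]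
  · intro f g hfg
    have h3 : Vi (D f) = Vi (D g) := hDi hfg
    have h4 : D f = D g := by
      have h5 : ∀ x, (1 - T) (Vi x) = x := fun x => by
        have := congrArg (fun R : F →L[ℂ] F => R x) h2
        exact this
      rw [← h5 (D f), ← h5 (D g), h3]
    exact hDi h4
  · intro f
    have h3 : ⟪(D * Vi * D) f, f⟫_ℂ = ⟪Vi (D f), D f⟫_ℂ := by
      have : (D * Vi * D) f = D (Vi (D f)) := rfl
      rw [this]
      have h4 := ContinuousLinearMap.adjoint_inner_left D f (Vi (D f))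
      rw [show ContinuousLinearMap.adjoint D = D from hD.star_eq] at h4
      exact h4
    rw [h3]
    set h := Vi (D f) with hh
    have h5 : D f = h - T h := by
      have : (1 - T) (Vi (D f)) = D f :=
        congrArg (fun R : F →L[ℂ] F => R (D f)) h2
      rw [← this]; simp [hh]
    rw [h5, inner_sub_right, Complex.sub_re]
    have h6 : (⟪h, h⟫_ℂ).re = ‖h‖ ^ 2 := by
      have := inner_self_eq_norm_sq (𝕜 := ℂ) h
      simpa using this
    have h7 : (⟪h, T h⟫_ℂ).re ≤ 1 / 2 * ‖h‖ ^ 2 := by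
      calc (⟪h, T h⟫_ℂ).re ≤ ‖⟪h, T h⟫_ℂ‖ := Complex.re_le_norm _
        _ ≤ ‖h‖ * ‖T h‖ := norm_inner_le_norm _ _
        _ ≤ ‖h‖ * (‖T‖ * ‖h‖) := by gcongr; exact T.le_opNorm h
        _ ≤ ‖h‖ * (1 / 2 * ‖h‖) := by gcongr
        _ = 1 / 2 * ‖h‖ ^ 2 := by ring
    rw [h6]
    nlinarith [sq_nonneg ‖h‖]

/-- the family `V θ = (1 - b Y* Y)⁻¹` is continuous -/
theorem exists_Vi {F E : Type} [NormedAddCommGroup F] [InnerProductSpace ℂ F]
    [CompleteSpace F] [NormedAddCommGroup E] [InnerProductSpace ℂ E] [CompleteSpace E]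
    (Ys : ℝ → E →L[ℂ] F) (b : ℝ) (hb : 0 < b)
    (h : ∀ θ ∈ Ioo (0 : ℝ) 1, b * ‖Ys θ‖ ^ 2 ≤ 1 / 2) (hc : ContinuousOn Ys (Ioo 0 1)) :
    ∃ Vi : ℝ → F →L[ℂ] F, ContinuousOn Vi (Ioo 0 1) ∧ ∀ θ ∈ Ioo (0 : ℝ) 1,
      Vi θ * (1 - (b : ℂ) • (Ys θ ∘L (Ys θ).adjoint)) = 1 ∧
      (1 - (b : ℂ) • (Ys θ ∘L (Ys θ).adjoint)) * Vi θ = 1 ∧ ‖Vi θ‖ ≤ 2 := by
  have hT : ContinuousOn (fun θ => 1 - (b : ℂ) • (Ys θ ∘L (Ys θ).adjoint)) (Ioo 0 1) := by
    have h1 : ContinuousOn (fun θ => (Ys θ).adjoint) (Ioo 0 1) :=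
      (ContinuousLinearMap.adjoint (𝕜 := ℂ) (E := E) (F := F)).continuous.comp_continuousOn hc
    exact continuousOn_const.sub (ContinuousOn.const_smul (hc.clm_comp h1) (b : ℂ))
  refine ⟨fun θ => Ring.inverse (1 - (b : ℂ) • (Ys θ ∘L (Ys θ).adjoint)), ?_, ?_⟩
  · intro θ hθ
    have hu : IsUnit (1 - (b : ℂ) • (Ys θ ∘L (Ys θ).adjoint)) :=
      isUnit_one_sub_of _ (norm_bYY (Ys θ) b hb (h θ hθ))
    obtain ⟨u, hu⟩ := hu
    have h2 := NormedRing.inverse_continuousAt u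
    rw [hu] at h2
    exact ContinuousAt.comp_continuousWithinAt
      (f := fun θ => 1 - (b : ℂ) • (Ys θ ∘L (Ys θ).adjoint)) h2 (hT θ hθ)
  · intro θ hθ
    have hu : IsUnit (1 - (b : ℂ) • (Ys θ ∘L (Ys θ).adjoint)) :=
      isUnit_one_sub_of _ (norm_bYY (Ys θ) b hb (h θ hθ))
    refine ⟨Ring.inverse_mul_cancel _ hu, Ring.mul_inverse_cancel _ hu, ?_⟩
    exact norm_inv_le _ _ (norm_bYY (Ys θ) b hb (h θ hθ)) (Ring.mul_inverse_cancel _ hu)


theorem mem_graph_iff' {E : Type} [NormedAddCommGroup E] [InnerProductSpace ℂ E]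
    (A : E →ₗ.[ℂ] E) (u g : E) : (u, g) ∈ A.graph ↔ ∃ x : A.domain, (x : E) = u ∧ A x = g := by
  rw [LinearPMap.mem_graph_iff]

/-- the image under `t ↦ 1/t - M` of a measure that does not charge the compact null sets is
absolutely continuous -/
theorem ac_of_compact (ν : Measure ℝ) [IsFiniteMeasure ν] (M : ℝ) (h0 : ν (Iic 0) = 0)
    (h : ∀ B : Set ℝ, IsCompact B → B ⊆ Ioi 0 → volume B = 0 →
      volume ((fun t : ℝ => 1 / t - M) '' B) = 0 → ν B = 0) :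
    ν.map (fun t => 1 / t - M) ≪ volume := by
  have hm : Measurable (fun t : ℝ => 1 / t - M) := by fun_prop
  refine Measure.AbsolutelyContinuous.mk fun S hS hS0 => ?_
  rw [Measure.map_apply hm hS]
  set T : Set ℝ := (fun t : ℝ => 1 / t - M) ⁻¹' S ∩ Ioi 0 with hT
  have hTm : MeasurableSet T := (hm hS).inter measurableSet_Ioi
  have h1 : (fun t : ℝ => 1 / t - M) ⁻¹' S ⊆ Iic 0 ∪ T := by
    intro t ht
    rcases le_or_gt t 0 with h2 | h2
    · exact Or.inl h2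
    · exact Or.inr ⟨ht, h2⟩
  have hT0 : volume T = 0 := by
    have h2 : T ⊆ (fun s : ℝ => 1 / (s + M)) '' (S ∩ Ioi (-M)) := by
      intro t ht
      have ht0 : (0 : ℝ) < t := ht.2
      refine ⟨1 / t - M, ⟨ht.1, ?_⟩, ?_⟩
      · have : 0 < 1 / t := by positivity
        simp only [mem_Ioi]; linarith
      · simp
    refine measure_mono_null h2 ?_
    refine addHaar_image_eq_zero_of_differentiableOn_of_addHaar_eq_zero (μ := volume) ?_
      (measure_mono_null inter_subset_left hS0)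
    intro s hs
    have h3 : s + M ≠ 0 := by
      have : -M < s := hs.2
      linarith
    exact ((differentiableAt_const _).div (differentiableAt_id.add_const M)
      h3).differentiableWithinAt
  have hνT : ν T = 0 := by
    rw [hTm.measure_eq_iSup_isCompact]
    simp only [ENNReal.iSup_eq_zero]
    intro B hB hBc
    refine h B hBc (fun t ht => (hB ht).2) (measure_mono_null hB hT0) ?_
    refine measure_mono_null ?_ hS0
    rintro _ ⟨t, ht, rfl⟩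
    exact (hB ht).1
  refine measure_mono_null h1 ?_
  exact measure_union_null h0 hνT


/-- the main theorem, with uniqueness of the spectral measures -/
def S_MAIN2 : Prop := ∀ (α : ℝ), 0 < α → ∀ (γ : ℝ → Pl), PerCurve γ →
  (∃ C : ℝ, ∀ ψ : Sc, α * (traceForm γ ψ ψ).re ≤
    1 / 2 * (gradForm ψ ψ).re + C * ‖cls ψ‖ ^ 2) ∧
  ∃ H : HS →ₗ.[ℂ] HS, (∀ u g : HS, (u, g) ∈ H.graph ↔ formRel α γ u g) ∧
    Dense (H.domain : Set HS) ∧ IsSelfAdjoint H ∧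
    (∀ f : HS, ∃! μ : Measure ℝ, IsSM H f μ) ∧
    ∀ (f : HS) (μ : Measure ℝ), IsSM H f μ → μ ≪ volume

/-- the assembly -/
theorem t_MAIN (hCRV : S_CRV) (hKUN : S_KUN) (hYS : S_YS) (hDOP : S_DOP) (hDI : S_DI)
    (hVPH : S_VPH) (hTRI : S_TRI) (hLNK : S_LNK) (hSAB : S_SAB) (hSMX : S_SMX) (hSPX : S_SPX)
    (hSTU : S_STU) (hFIB : S_FIB) (hBAD : S_BAD) (hDISP : S_DISP) : S_MAIN2 := by
  intro α hα γ hγ
  obtain ⟨a, L, e₁, e₂, X, y, hC⟩ := hCRV γ hγ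
  have ha := hC.a_pos
  have hβ : 0 < 2 * Real.pi / a := by have := Real.pi_pos; positivity
  have hb : 0 < α / a := by positivity
  obtain ⟨M, Ys, hM, hYs, hYsc⟩ := hYS L (2 * Real.pi / a) X y hC.crv (α / a) hb
  obtain ⟨D, hD, hDc⟩ := hDOP (2 * Real.pi / a) M hβ hM
  obtain ⟨K, hK⟩ := hKUN a e₁ e₂ ha hC.norm1 hC.norm2 hC.orth
  obtain ⟨v, hv, hvd, hvf, hvD⟩ := hVPH a M e₁ e₂ ha hM hC.norm1 hC.norm2 hC.orth K hK
  obtain ⟨Vi, hVic, hVi⟩ := exists_Vi Ys (α / a) hb (fun θ hθ => (hYs θ hθ.1 hθ.2).2) hYsc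
  -- direct integrals
  obtain ⟨DD, hDD, -⟩ := (hDI FF FF FF).1 D (1 / √M) hDc (fun θ _ => (hD θ).2.2.2)
  have hYsn : ∀ θ ∈ Ioo (0 : ℝ) 1, ‖Ys θ‖ ≤ √(1 / 2 / (α / a)) := by
    intro θ hθ
    refine Real.le_sqrt_of_sq_le ?_
    rw [le_div_iff₀ hb]
    have := (hYs θ hθ.1 hθ.2).2
    linarith
  obtain ⟨ZZ, hZZ, hZZn⟩ := (hDI (EL L) FF FF).1 Ys _ hYsc hYsn
  have hYY : IsDI (fun θ => (Ys θ).adjoint) ZZ.adjoint :=
    (hDI (EL L) FF FF).2.2.2.2.1 Ys ZZ _ hYsc hYsn hZZ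
  obtain ⟨VV, hVV, -⟩ := (hDI FF FF FF).1 Vi 2 hVic (fun θ hθ => (hVi θ hθ).2.2)
  set YY : DI FF →L[ℂ] DI (EL L) := ZZ.adjoint with hYYd
  have hYYa : YY.adjoint = ZZ := by rw [hYYd, ContinuousLinearMap.adjoint_adjoint]
  have hZn : α / a * ‖ZZ‖ ^ 2 ≤ 1 / 2 := by
    have h1 : ‖ZZ‖ ≤ √(1 / 2 / (α / a)) := by
      refine hZZn.trans ?_
      rw [max_eq_left (Real.sqrt_nonneg _)]
    have h2 : ‖ZZ‖ ^ 2 ≤ 1 / 2 / (α / a) := by
      calc ‖ZZ‖ ^ 2 ≤ √(1 / 2 / (α / a)) ^ 2 := by gcongr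
        _ = 1 / 2 / (α / a) := Real.sq_sqrt (by positivity)
    calc α / a * ‖ZZ‖ ^ 2 ≤ α / a * (1 / 2 / (α / a)) := by gcongr
      _ = 1 / 2 := by field_simp
  -- the direct integral of `1 - b Y* Y`
  have hOne : IsDI (fun θ => (1 : ℂ) • (1 : FF →L[ℂ] FF) +
      (-((α / a : ℝ) : ℂ)) • (Ys θ ∘L (Ys θ).adjoint))
      ((1 : ℂ) • (1 : DI FF →L[ℂ] DI FF) + (-((α / a : ℝ) : ℂ)) • (ZZ ∘L YY)) :=
    (hDI FF FF FF).2.2.1 _ _ _ _ _ _ (hDI FF FF FF).2.2.2.2.2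
      ((hDI FF (EL L) FF).2.1 _ _ _ _ hYY hZZ)
  have hS : (1 : ℂ) • (1 : DI FF →L[ℂ] DI FF) + (-((α / a : ℝ) : ℂ)) • (ZZ ∘L YY) =
      1 - ((α / a : ℝ) : ℂ) • (YY.adjoint ∘L YY) := by
    rw [hYYa, one_smul, neg_smul, sub_eq_add_neg]
  have hSθ : (fun θ => (1 : ℂ) • (1 : FF →L[ℂ] FF) +
      (-((α / a : ℝ) : ℂ)) • (Ys θ ∘L (Ys θ).adjoint)) =
      fun θ => 1 - ((α / a : ℝ) : ℂ) • (Ys θ ∘L (Ys θ).adjoint) := by
    funext θ
    rw [one_smul, neg_smul, sub_eq_add_neg]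
  rw [hS, hSθ] at hOne
  have hIDI1 : IsDI (fun _ => (1 : FF →L[ℂ] FF)) (1 : DI FF →L[ℂ] DI FF) :=
    (hDI FF FF FF).2.2.2.2.2
  have hcongr : ∀ (T T' : ℝ → FF →L[ℂ] FF) (TT : DI FF →L[ℂ] DI FF),
      (∀ θ ∈ Ioo (0 : ℝ) 1, T θ = T' θ) → IsDI T TT → IsDI T' TT := by
    intro T T' TT h h' F
    filter_upwards [h' F, ae_restrict_mem measurableSet_Ioo] with θ h1 h2
    rw [h1, h θ h2]
  have hVV1 : VV * (1 - ((α / a : ℝ) : ℂ) • (YY.adjoint ∘L YY)) = 1 := by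
    refine (hDI FF FF FF).2.2.2.1 (fun _ => 1) _ _ ?_ hIDI1
    refine hcongr _ _ _ (fun θ hθ => ?_) ((hDI FF FF FF).2.1 _ _ _ _ hOne hVV)
    exact (hVi θ hθ).1
  have hVV2 : (1 - ((α / a : ℝ) : ℂ) • (YY.adjoint ∘L YY)) * VV = 1 := by
    refine (hDI FF FF FF).2.2.2.1 (fun _ => 1) _ _ ?_ hIDI1
    refine hcongr _ _ _ (fun θ hθ => ?_) ((hDI FF FF FF).2.1 _ _ _ _ hVV hOne)
    exact (hVi θ hθ).2.1
  -- the operator
  have hDDs : IsSelfAdjoint DD := by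
    have h1 : IsDI (fun θ => (D θ).adjoint) DD.adjoint :=
      (hDI FF FF FF).2.2.2.2.1 D DD (1 / √M) hDc (fun θ _ => (hD θ).2.2.2) hDD
    have h2 : IsDI D DD.adjoint :=
      hcongr _ _ _ (fun θ _ => (hD θ).2.1.star_eq) h1
    exact (hDI FF FF FF).2.2.2.1 D _ _ h2 hDD
  have hDDi : Function.Injective DD := by
    intro F G hFG
    refine Lp.ext ?_
    have h1 : (DD F : ℝ → FF) =ᵐ[m01] DD G := by rw [hFG]
    filter_upwards [hDD F, hDD G, h1] with θ h2 h3 h4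
    rw [h2, h3] at h4
    exact (hD θ).2.2.1 h4
  have hTs : IsSelfAdjoint (((α / a : ℝ) : ℂ) • (YY.adjoint ∘L YY)) := by
    have h1 : IsSelfAdjoint (YY.adjoint ∘L YY) := by
      unfold IsSelfAdjoint
      have : star (YY.adjoint ∘L YY) = ContinuousLinearMap.adjoint (YY.adjoint ∘L YY) := rfl
      rw [this, ContinuousLinearMap.adjoint_comp, ContinuousLinearMap.adjoint_adjoint]
    unfold IsSelfAdjoint
    rw [star_smul, h1.star_eq]
    congr 1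
    exact Complex.conj_ofReal _
  have hTn : ‖((α / a : ℝ) : ℂ) • (YY.adjoint ∘L YY)‖ ≤ 1 / 2 := by
    have := norm_bYY ZZ (α / a) hb hZn
    rw [hYYa]
    exact this
  obtain ⟨hAs, hAi, hAp⟩ := core_facts DD _ VV hDDs hDDi hTs hTn hVV1 hVV2
  set AA : DI FF →L[ℂ] DI FF := DD * VV * DD with hAA
  set U : HS ≃ₗᵢ[ℂ] DI FF := (Lp.fourierTransformₗᵢ Pl ℂ).trans K with hU
  have hlink := hLNK Sc HS (DI FF) (DI (EL L)) clsL v U DD VV YY gradForm (traceForm γ) α (α / a) M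
    hM hvd hDDs ?_ hvf ?_ hVV1 hVV2
  rotate_left
  · intro φ
    exact hvD D DD (fun θ => (hD θ).1) hDD φ
  · intro φ ψ
    rw [hTRI γ a L M e₁ e₂ X y hC hM Ys (fun θ h0 h1 => (hYs θ h0 h1).1) YY hYY v hv φ ψ]
    push_cast
    have : (a : ℂ) ≠ 0 := by exact_mod_cast ha.ne'
    field_simp
  have hrel : ∀ u g : HS, formRel α γ u g ↔ U u = AA (U (g + (M : ℂ) • u)) := fun u g => hlink u g
  -- the form bound
  refine ⟨⟨M / 2, fun ψ => ?_⟩, ?_⟩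
  · have h1 := hvf ψ ψ
    have h2 := hTRI γ a L M e₁ e₂ X y hC hM Ys (fun θ h0 h1 => (hYs θ h0 h1).1) YY hYY v hv ψ ψ
    have h3 : (⟪v ψ, v ψ⟫_ℂ).re = ‖v ψ‖ ^ 2 := by
      have := inner_self_eq_norm_sq (𝕜 := ℂ) (v ψ)
      simpa using this
    have h4 : (⟪cls ψ, cls ψ⟫_ℂ).re = ‖cls ψ‖ ^ 2 := by
      have := inner_self_eq_norm_sq (𝕜 := ℂ) (cls ψ)
      simpa using this
    have h5 : (⟪YY (v ψ), YY (v ψ)⟫_ℂ).re = ‖YY (v ψ)‖ ^ 2 := by
      have := inner_self_eq_norm_sq (𝕜 := ℂ) (YY (v ψ))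
      simpa using this
    rw [h2, Complex.re_ofReal_mul] at h5
    rw [h1, Complex.add_re, Complex.re_ofReal_mul, h4] at h3
    have h6 : ‖YY (v ψ)‖ ≤ ‖ZZ‖ * ‖v ψ‖ := by
      have := YY.le_opNorm (v ψ)
      rwa [hYYd, LinearIsometryEquiv.norm_map] at this
    have h7 : α / a * ‖YY (v ψ)‖ ^ 2 ≤ 1 / 2 * ‖v ψ‖ ^ 2 := by
      calc α / a * ‖YY (v ψ)‖ ^ 2 ≤ α / a * (‖ZZ‖ * ‖v ψ‖) ^ 2 := by gcongr
        _ = (α / a * ‖ZZ‖ ^ 2) * ‖v ψ‖ ^ 2 := by ring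
        _ ≤ 1 / 2 * ‖v ψ‖ ^ 2 := by gcongr
    have h8 : α * (traceForm γ ψ ψ).re = α / a * ‖YY (v ψ)‖ ^ 2 := by
      rw [← h5]; field_simp
    rw [h8]
    linarith
  -- the operator `B` on `HS`
  set B : HS →L[ℂ] HS := (U.symm.toContinuousLinearEquiv : DI FF →L[ℂ] HS) ∘L AA ∘L
    (U.toContinuousLinearEquiv : HS →L[ℂ] DI FF) with hB
  have hBap : ∀ x, B x = U.symm (AA (U x)) := fun x => rfl
  have hAin : ∀ F G : DI FF, ⟪AA F, G⟫_ℂ = ⟪F, AA G⟫_ℂ := by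
    intro F G
    have h1 := ContinuousLinearMap.adjoint_inner_left AA G F
    rw [show ContinuousLinearMap.adjoint AA = AA from hAs.star_eq] at h1
    exact h1
  have hBs : IsSelfAdjoint B := by
    rw [ContinuousLinearMap.isSelfAdjoint_iff_isSymmetric]
    intro x y'
    change ⟪B x, y'⟫_ℂ = ⟪x, B y'⟫_ℂ
    rw [hBap, hBap]
    have h1 : ⟪U.symm (AA (U x)), y'⟫_ℂ = ⟪AA (U x), U y'⟫_ℂ := by
      rw [← U.inner_map_map, U.apply_symm_apply]
    have h2 : ⟪x, U.symm (AA (U y'))⟫_ℂ = ⟪U x, AA (U y')⟫_ℂ := by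
      rw [← U.inner_map_map, U.apply_symm_apply]
    rw [h1, h2, hAin]
  have hBi : Function.Injective B := by
    intro x y' hxy
    rw [hBap, hBap] at hxy
    exact U.injective (hAi (U.symm.injective hxy))
  obtain ⟨H, hHg, hHd, hHs⟩ := hSAB HS B hBs hBi M (formRel α γ) (by
    intro u g
    rw [hrel, hBap]
    constructor
    · intro h; rw [← h, U.symm_apply_apply]
    · intro h
      have := congrArg U h
      rw [U.apply_symm_apply] at this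
      exact this.symm)
  -- every spectral measure is an image
  have huniq : ∀ (f : HS) (μ ν : Measure ℝ), IsSM H f μ → SpM AA (U f) ν →
      μ = ν.map fun t => 1 / t - M := by
    intro f μ ν hμ hν
    haveI := hν.1
    haveI := hμ.1
    obtain ⟨h0, h1⟩ := hSMX (DI FF) AA hAs hAi hAp M (U f) ν hν
    refine hSTU _ _ fun z hz => ?_
    obtain ⟨u₁, hu1, hu2, hu3⟩ := h1 z hz
    rw [← hu3]
    obtain ⟨u, hu4, hu5⟩ := hμ.2 z hz
    rw [← hu5]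
    have h2 : formRel α γ (u : HS) (f + z • (u : HS)) := by
      rw [← hHg, mem_graph_iff']
      refine ⟨u, rfl, ?_⟩
      rw [← hu4]; abel
    rw [hrel] at h2
    have h4 : U (f + z • (u : HS) + (M : ℂ) • (u : HS)) =
        U f + z • U (u : HS) + (M : ℂ) • U (u : HS) := by
      rw [map_add, map_add, map_smul, map_smul]
    rw [h4] at h2
    have h3 := hu2 _ h2.symm
    rw [← U.inner_map_map, h3]
  refine ⟨H, hHg, hHd, hHs, ?_, ?_⟩
  · -- existence of spectral measures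
    intro f
    obtain ⟨ν, hν⟩ := hSPX (DI FF) AA hAs (U f)
    haveI := hν.1
    obtain ⟨h0, h1⟩ := hSMX (DI FF) AA hAs hAi hAp M (U f) ν hν
    refine ⟨ν.map fun t => 1 / t - M, ⟨inferInstance, fun z hz => ?_⟩,
      fun μ hμ => huniq f μ ν hμ hν⟩
    obtain ⟨u₁, hu1, -, hu3⟩ := h1 z hz
    set u : HS := U.symm u₁ with hu
    have hUu : U u = u₁ := by rw [hu, U.apply_symm_apply]
    have h2 : formRel α γ u (f + z • u) := by
      rw [hrel]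
      have h3 : U (f + z • u + (M : ℂ) • u) = U f + z • u₁ + (M : ℂ) • u₁ := by
        rw [map_add, map_add, map_smul, map_smul, hUu]
      rw [h3, hUu]
      exact hu1.symm
    rw [← hHg, mem_graph_iff'] at h2
    obtain ⟨x, hx1, hx2⟩ := h2
    refine ⟨x, ?_, ?_⟩
    · rw [hx2, hx1]; abel
    · rw [hx1, ← hu3, ← U.inner_map_map, hUu]
  · -- absolute continuity
    intro f μ hμ
    obtain ⟨ν, hν⟩ := hSPX (DI FF) AA hAs (U f)
    haveI := hν.1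
    haveI := hμ.1
    obtain ⟨h0, h1⟩ := hSMX (DI FF) AA hAs hAi hAp M (U f) ν hν
    have hμν := huniq f μ ν hμ hν
    rw [hμν]
    refine ac_of_compact ν M h0 fun S hS hS0 hSn hSn' => ?_
    have hdi : IsDI (fun θ => D θ * Vi θ * D θ) AA :=
      (hDI FF FF FF).2.1 _ _ _ _ hDD ((hDI FF FF FF).2.1 _ _ _ _ hVV hDD)
    have hAc : ContinuousOn (fun θ => D θ * Vi θ * D θ) (Ioo 0 1) := (hDc.mul hVic).mul hDc
    refine hDISP FF (fun θ => D θ * Vi θ * D θ) AA (1 / √M * 2 * (1 / √M)) S hAc ?_ hdi hS ?_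
      (U f) ν hν
    · intro θ hθ
      obtain ⟨h5, -, -⟩ := core_facts (D θ) _ (Vi θ) (hD θ).2.1 (hD θ).2.2.1
        (sa_bYY (Ys θ) (α / a)) (norm_bYY (Ys θ) (α / a) hb (hYs θ hθ.1 hθ.2).2)
        (hVi θ hθ).1 (hVi θ hθ).2.1
      refine ⟨h5, ?_⟩
      calc ‖D θ * Vi θ * D θ‖ ≤ ‖D θ * Vi θ‖ * ‖D θ‖ := norm_mul_le _ _
        _ ≤ ‖D θ‖ * ‖Vi θ‖ * ‖D θ‖ := by gcongr; exact norm_mul_le _ _
        _ ≤ 1 / √M * 2 * (1 / √M) := by
          have := (hD θ).2.2.2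
          have := (hVi θ hθ).2.2
          gcongr
    · have h6 := hBAD L (2 * Real.pi / a) X y hC.crv (α / a) ((fun t => 1 / t - M) '' S) hb hSn'
      have h7 : ∀ᵐ θ ∂m01, θ ∉ Bad L (2 * Real.pi / a) X y (α / a) ((fun t => 1 / t - M) '' S) := by
        refine ae_restrict_of_ae ?_
        rw [ae_iff]
        simpa using h6
      filter_upwards [h7, ae_restrict_mem measurableSet_Ioo] with θ h8 h9
      intro w ν' hν'
      exact hFIB L (2 * Real.pi / a) X y hC.crv (α / a) M θ (Ys θ) (D θ) (Vi θ) S hb hM h9.1 h9.2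
        (hD θ).2.1 (hD θ).1 (hYs θ h9.1 h9.2).1 (hYs θ h9.1 h9.2).2 (hVi θ h9).1 (hVi θ h9).2.1
        hS hS0 hSn h8 w ν' hν'

end Pool.Agent.H773.LK
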