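import Pool.Agent.H773.LK.Spec

/-!
# Absolute continuity for leaky periodic curves (MP_daec8e_mp): specification, part 2
(project LK, owner helper773): the fibre operators and the direct integral
-/

set_option autoImplicit false

noncomputable section

namespace Pool.Agent.H773.LK

open MeasureTheory Filter Topology Set
open scoped ENNReal NNReal ComplexConjugate InnerProductSpace

/-! ## 8. The fibre Hilbert space -/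

/-- the measure on `ℤ × ℝ` -/
abbrev mZR : Measure (ℤ × ℝ) := (Measure.count : Measure ℤ).prod volume

/-- `L²(ℤ × ℝ)` -/
abbrev FF : Type := Lp ℂ 2 mZR

/-- multiplication operators -/
def IsMop (b : ℤ × ℝ → ℂ) (T : FF →L[ℂ] FF) : Prop :=
  ∀ v : FF, (T v : ℤ × ℝ → ℂ) =ᵐ[mZR] fun ξ => b ξ * v ξ

/-- the symbol `β²(m+θ)² + 4π²η²` -/
def ww (β θ : ℝ) (ξ : ℤ × ℝ) : ℝ := (β * ((ξ.1 : ℝ) + θ)) ^ 2 + (2 * Real.pi * ξ.2) ^ 2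

/-- `ê(m,η) = ∫ e^{-i(m X s + 2πη y s)} e(s) ds` -/
def eh (L : ℝ) (X y : ℝ → ℝ) (e : EL L) (ξ : ℤ × ℝ) : ℂ :=
  ∫ s in Ioc (0 : ℝ) L,
    Complex.exp (-(Complex.I * (((ξ.1 : ℝ) * X s + 2 * Real.pi * ξ.2 * y s : ℝ) : ℂ))) * e s

/-- `Y^* e = ê / √(w + M)` -/
def IsYs (L β : ℝ) (X y : ℝ → ℝ) (M θ : ℝ) (Ys : EL L →L[ℂ] FF) : Prop :=
  ∀ e : EL L, (Ys e : ℤ × ℝ → ℂ) =ᵐ[mZR] fun ξ => eh L X y e ξ / ((√(ww β θ ξ + M) : ℝ) : ℂ)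

/-- `D` is the multiplication by `(w + M)^{-1/2}` -/
def IsD (β M θ : ℝ) (D : FF →L[ℂ] FF) : Prop :=
  IsMop (fun ξ => ((1 / √(ww β θ ξ + M) : ℝ) : ℂ)) D

/-- **LOR.** Proof. `f(u) = e^{-κ|u|}` is continuous and integrable, its Fourier transform
`∫ e^{-2πiηu} f(u) du = 2κ/(κ²+4π²η²)` (two elementary integrals) is integrable; Fourier inversion. -/
def S_LOR : Prop := ∀ (κ : ℂ) (u : ℝ), 0 < κ.re →
  (Integrable fun η : ℝ => 1 / (κ ^ 2 + ((4 * Real.pi ^ 2 * η ^ 2 : ℝ) : ℂ))) ∧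
  ∫ η : ℝ, Complex.exp (Complex.I * ((2 * Real.pi * η * u : ℝ) : ℂ)) /
      (κ ^ 2 + ((4 * Real.pi ^ 2 * η ^ 2 : ℝ) : ℂ)) =
    Complex.exp (-(κ * ((|u| : ℝ) : ℂ))) / (2 * κ)

/-- **DOP.** Proof. Multiplication by a real bounded measurable function that does not vanish.
Continuity in `θ`: `|∂_θ (w+M)^{-1/2}| = β²|m+θ| (w+M)^{-3/2} ≤ C`. -/
def S_DOP : Prop := ∀ (β M : ℝ), 0 < β → 0 < M → ∃ D : ℝ → FF →L[ℂ] FF,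
  (∀ θ, IsD β M θ (D θ) ∧ IsSelfAdjoint (D θ) ∧ Function.Injective (D θ) ∧ ‖D θ‖ ≤ 1 / √M) ∧
  ContinuousOn D (Ioo 0 1)

/-- **YS.** Proof. For `e ∈ L²(0,L)`, `M > 0`, `κ_m = √(β²(m+θ)² + M)`, Fubini and LOR:
`∫ |ê(m,η)|²/(w+M) dη = ⟨e, Mo m κ_m e⟩` (real, `≥ 0`). Summing over `|m| ≤ N` and letting `N → ∞`
(CONV): `∑_m ∫ |ê|²/(w+M) = ⟨e, KK κ e⟩ ≤ ‖KK κ‖ ‖e‖²`: so `Y^* e ∈ L²` and `‖Y^*‖² ≤ ‖KK κ‖`.
Moreover for `M ≥ M₀ = 1`: `⟨e, (KK κ^M - PS κ^M N) e⟩ = ∑_{|m|>N} ∫ |ê|²/(w+M) ≤` the same for `M₀`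
`≤ ρ(N) ‖e‖²` uniformly in `θ ∈ (0,1)` (CONV, `Adm β 1 (β+1)`: `|√(β²(m+θ)²+1) - β|m|| ≤ β + 1`), and
`‖PS κ^M N‖ ≤ (2N+1) L/(2√M)`. So `‖Y^*‖² ≤ ρ(N) + (2N+1)L/(2√M)`: choose `N`, then `M`.
Continuity: `|(w_θ+M)^{-1/2} - (w_θ'+M)^{-1/2}| ≤ C|θ-θ'| (w_θ+M)^{-1/2}`. -/
def S_YS : Prop := ∀ (L β : ℝ) (X y : ℝ → ℝ), Crv L β X y → ∀ a : ℝ, 0 < a →
  ∃ (M : ℝ) (Ys : ℝ → EL L →L[ℂ] FF), 0 < M ∧
    (∀ θ : ℝ, 0 < θ → θ < 1 → IsYs L β X y M θ (Ys θ) ∧ a * ‖Ys θ‖ ^ 2 ≤ 1 / 2) ∧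
    ContinuousOn Ys (Ioo 0 1)

/-- **YWY.** Proof. `⟨e', Y W Y^* e⟩ = ∑_m ∫ conj(ê') ê /(w - z) dη` (absolutely convergent) and by
Fubini and LOR `∫ conj(ê')ê/(w - z) dη = ⟨e', Mo m κ_m e⟩`, `κ_m = kpl β θ z m`,
`κ_m² = β²(m+θ)² - z`, `Re κ_m > 0` (KPL). Partial sums converge to `⟨e', KK κ e⟩` by CONV. -/
def S_YWY : Prop := ∀ (L β : ℝ) (X y : ℝ → ℝ), Crv L β X y → ∀ (M θ : ℝ) (z : ℂ)
  (Ys : EL L →L[ℂ] FF) (W : FF →L[ℂ] FF), 0 < M → 0 < θ → θ < 1 → 0 < z.im →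
  IsYs L β X y M θ Ys →
  IsMop (fun ξ => ((ww β θ ξ + M : ℝ) : ℂ) / (((ww β θ ξ : ℝ) : ℂ) - z)) W →
  Ys.adjoint ∘L W ∘L Ys = KK L X y (kpl β θ z)

/-! ## 9. Spectral measures -/

/-- `ν` is the spectral measure of the vector `φ` for the bounded selfadjoint operator `T`
(exists: `Pool.Agent.H792R3.exists_specMeas` in `Pool.Graph.R_seed8.H792R3.SpecMeas`) -/
def SpM {F : Type} [NormedAddCommGroup F] [InnerProductSpace ℂ F] [CompleteSpace F]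
    (T : F →L[ℂ] F) (φ : F) (ν : Measure ℝ) : Prop :=
  IsFiniteMeasure ν ∧ ∀ f : ℝ → ℝ, Continuous f →
    Integrable f ν ∧ ((∫ x, f x ∂ν : ℝ) : ℂ) = inner ℂ φ (cfc f T φ)

/-- **POIS.** Proof. By compactness the bound `C` holds for all `ζ = s - iε`, `s` in the closed
`δ`-neighbourhood of `B`, `0 < ε ≤ δ`. `|Im ∫ dν(t)/(t - ζ)| = ∫ ε/((t-s)²+ε²) dν ≥ ν([s-ε,s+ε])/(2ε)`. So
`ν([s-r,s+r]) ≤ 2Cr` for `s ∈ B_r := cthickening r B`. Tonelli: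
`2r ν(B) ≤ ∫_{B_r} ν([s-r,s+r]) ds ≤ 2Cr |B_r|`, and `|B_r| → |B| = 0`
(`tendsto_measure_cthickening_of_isCompact`). -/
def S_POIS : Prop := ∀ (ν : Measure ℝ) [IsFiniteMeasure ν] (B : Set ℝ), IsCompact B → volume B = 0 →
  (∀ t ∈ B, ∃ δ C : ℝ, 0 < δ ∧ ∀ ζ : ℂ, ζ.im < 0 → ‖ζ - t‖ < δ →
    ‖∫ s : ℝ, 1 / ((s : ℂ) - ζ) ∂ν‖ ≤ C) → ν B = 0

/-- **RES.** The resolvent and the spectral measure. Proof. `A - ζ` is invertible because the spectrum is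
real; `(A-ζ)^{-1} = cfc(Re) + i cfc(Im)` of `1/(t-ζ)` (multiply by `A - ζ`). See also
`Pool.Graph.R_seed8.TH369.AN.SB`. -/
def S_RES : Prop := ∀ (F : Type) [NormedAddCommGroup F] [InnerProductSpace ℂ F] [CompleteSpace F]
  (A : F →L[ℂ] F), IsSelfAdjoint A → ∀ (ζ : ℂ), ζ.im ≠ 0 → IsUnit (A - ζ • 1) ∧
    ∀ (v u : F) (ν : Measure ℝ), SpM A v ν → A u - ζ • u = v →
      inner ℂ v u = ∫ s : ℝ, 1 / ((s : ℂ) - ζ) ∂ν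

/-- **ABS.** The abstract fibre theorem. `V = 1 - a Y^*Y ≥ 1/2` (`Ys = Y^*`), `A = D V^{-1} D`.
Proof. For `Im z > 0` put `ζ = 1/(z+M)` (`Im ζ < 0`), `W = 1 - (z+M) D²` (invertible: `D²` is selfadjoint),
`V_z = W - a Ys Ys†` (invertible: `|⟨v,V_z v⟩| ≥ c‖v‖²`, since `Im ⟨v,V_z v⟩ = -Im z ‖Dv‖²` and
`Re ⟨v,V_z v⟩ ≥ ½‖v‖² - (Re z + M)‖Dv‖²`), `Q = Ys† W^{-1} Ys`. Identities:
(a) `(A - ζ) D V_z^{-1} = -ζ D V^{-1}`; (b) `V^{-1} D² V_z^{-1} = ζ (V_z^{-1} - V^{-1})`;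
(c) `Ys† V_z^{-1} Ys = ((1 - aQ)^{-1} - 1)/a`, `(1 - aQ)^{-1} = 1 + a Ys† V_z^{-1} Ys`.
For `v = D V^{-1} Ys e` and `u = -ζ^{-1} D V_z^{-1} Ys e`: `(A-ζ)u = v`, `⟨v,u⟩ = -⟨e, Ys†(V_z^{-1} - V^{-1}) Ys e⟩`,
bounded for `z` near `1/t - M`, `t ∈ B`, by `hres`; by RES and POIS `ν_{A,v}(B) = 0`. (`ζ` near `t`
corresponds to `z` near `1/t - M`.) The same for `A^n v` (`dν_{A,A^n v} = t^{2n} dν_{A,v}`). Let `u` be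
orthogonal to all `A^n D V^{-1} Ys e`: then `Ys† V^{-1} D A^n u = 0`, so `A^{n+1} u = D² A^n u`
(`V^{-1} = 1 + a Ys Ys† V^{-1}`), `A^n u = D^{2n} u`, so `cfc f A u = cfc f (D²) u` (polynomials are dense)
and `ν_{A,u} = ν_{D²,u}` vanishes on `B` by `hfree`. The vectors `A^n D V^{-1} Ys e` together with their orthogonal
complement are total; the set of `v` with `ν_{A,v}(B) = 0` is a closed subspace
(`Pool.Agent.Y663.WA.null_all` in `Pool.Graph.R_pool_sql_team_seeded_1acbe0a2.Y663.WA.Vec`). -/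
def S_ABS : Prop := ∀ (F E : Type) [NormedAddCommGroup F] [InnerProductSpace ℂ F] [CompleteSpace F]
  [NormedAddCommGroup E] [InnerProductSpace ℂ E] [CompleteSpace E]
  (D : F →L[ℂ] F) (Ys : E →L[ℂ] F) (a M : ℝ) (Vi : F →L[ℂ] F) (B : Set ℝ),
  IsSelfAdjoint D → 0 < a → 0 < M → a * ‖Ys‖ ^ 2 ≤ 1 / 2 →
  Vi * (1 - (a : ℂ) • (Ys ∘L Ys.adjoint)) = 1 → (1 - (a : ℂ) • (Ys ∘L Ys.adjoint)) * Vi = 1 →
  IsCompact B → B ⊆ Ioi 0 → volume B = 0 →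
  (∀ t ∈ B, ∃ δ C : ℝ, 0 < δ ∧ ∀ (z : ℂ) (Wi : F →L[ℂ] F), 0 < z.im →
    ‖z - ((1 / t - M : ℝ) : ℂ)‖ < δ → Wi * (1 - (z + M) • (D * D)) = 1 →
    (1 - (z + M) • (D * D)) * Wi = 1 →
    ∃ T : E →L[ℂ] E, T * (1 - (a : ℂ) • (Ys.adjoint ∘L Wi ∘L Ys)) = 1 ∧ ‖T‖ ≤ C) →
  (∀ (v : F) (ν : Measure ℝ), SpM (D * D) v ν → ν B = 0) →
  ∀ (v : F) (ν : Measure ℝ), SpM (D * Vi * D) v ν → ν B = 0

/-- **FREE.** Proof. `cfc f (D²)` is the multiplication by `f(1/(w+M))` (polynomials and limits, or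
uniqueness), so `ν(B) = ∫ 1_B(1/(w+M)) |v|²`; `{ξ : 1/(w(ξ)+M) ∈ B}` is null, since for fixed `m` it is the
preimage of a null set under `η ↦ (β²(m+θ)² + 4π²η²+M)^{-1}`, whose derivative vanishes only at `η = 0`. -/
def S_FREE : Prop := ∀ (β M θ : ℝ) (D : FF →L[ℂ] FF), 0 < β → 0 < M → IsSelfAdjoint D → IsD β M θ D →
  ∀ (B : Set ℝ) (v : FF) (ν : Measure ℝ), IsCompact B → B ⊆ Ioi 0 → volume B = 0 →
    SpM (D * D) v ν → ν B = 0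

/-- **FIB.** The fibre theorem. Proof. ABS with FREE; `hres` of ABS: `λ = 1/t - M ∈ B'`; since `θ ∉ Bad`,
`λ ∉ Thr` and `1 - a KK(kpl β θ λ)` is invertible, so by KPL and LIP `1 - a KK (kpl β θ z)` is invertible with bounded
inverse for `z` near `λ`, `Im z > 0`, and `Ys† Wi Ys = KK (kpl β θ z)` by YWY (`Wi` is the multiplication by
`(w+M)/(w-z)`, as `1 - (z+M)D²` is the multiplication by `(w - z)/(w+M)`). -/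
def S_FIB : Prop := ∀ (L β : ℝ) (X y : ℝ → ℝ), Crv L β X y → ∀ (a M θ : ℝ)
  (Ys : EL L →L[ℂ] FF) (D Vi : FF →L[ℂ] FF) (B : Set ℝ), 0 < a → 0 < M → 0 < θ → θ < 1 →
  IsSelfAdjoint D → IsD β M θ D → IsYs L β X y M θ Ys → a * ‖Ys‖ ^ 2 ≤ 1 / 2 →
  Vi * (1 - (a : ℂ) • (Ys ∘L Ys.adjoint)) = 1 → (1 - (a : ℂ) • (Ys ∘L Ys.adjoint)) * Vi = 1 →
  IsCompact B → B ⊆ Ioi 0 → volume B = 0 →
  θ ∉ Bad L β X y a ((fun t => 1 / t - M) '' B) →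
  ∀ (v : FF) (ν : Measure ℝ), SpM (D * Vi * D) v ν → ν B = 0

/-! ## 10. Direct integrals over `θ ∈ (0,1)` -/

/-- the measure on `(0,1)` -/
abbrev m01 : Measure ℝ := volume.restrict (Ioo (0 : ℝ) 1)

/-- `L²((0,1); G)` -/
abbrev DI (G : Type) [NormedAddCommGroup G] : Type := Lp G 2 m01

/-- `𝕋` is the direct integral of the operators `T θ` -/
def IsDI {G G' : Type} [NormedAddCommGroup G] [NormedSpace ℂ G] [NormedAddCommGroup G']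
    [NormedSpace ℂ G'] (T : ℝ → G →L[ℂ] G') (TT : DI G →L[ℂ] DI G') : Prop :=
  ∀ F : DI G, (TT F : ℝ → G') =ᵐ[m01] fun θ => T θ (F θ)

/-- **DI.** Proof. `θ ↦ T θ (F θ)` is a.e. strongly measurable (`T` is continuous on `(0,1)`), norm
bounded by `C ‖F θ‖`. Composition: a.e. equality. Adjoint: inner products are integrals
(`L2.inner_def`). -/
def S_DI : Prop := ∀ (G G' G'' : Type) [NormedAddCommGroup G] [InnerProductSpace ℂ G]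
  [CompleteSpace G] [NormedAddCommGroup G'] [InnerProductSpace ℂ G'] [CompleteSpace G']
  [NormedAddCommGroup G''] [InnerProductSpace ℂ G''] [CompleteSpace G''],
  (∀ (T : ℝ → G →L[ℂ] G') (C : ℝ), ContinuousOn T (Ioo 0 1) → (∀ θ ∈ Ioo (0 : ℝ) 1, ‖T θ‖ ≤ C) →
    ∃ TT : DI G →L[ℂ] DI G', IsDI T TT ∧ ‖TT‖ ≤ max C 0) ∧
  (∀ (T : ℝ → G →L[ℂ] G') (S : ℝ → G' →L[ℂ] G'') (TT : DI G →L[ℂ] DI G')
    (SS : DI G' →L[ℂ] DI G''), IsDI T TT → IsDI S SS →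
    IsDI (fun θ => S θ ∘L T θ) (SS ∘L TT)) ∧
  (∀ (T T' : ℝ → G →L[ℂ] G') (TT TT' : DI G →L[ℂ] DI G') (c c' : ℂ), IsDI T TT → IsDI T' TT' →
    IsDI (fun θ => c • T θ + c' • T' θ) (c • TT + c' • TT')) ∧
  (∀ (T : ℝ → G →L[ℂ] G') (TT TT' : DI G →L[ℂ] DI G'), IsDI T TT → IsDI T TT' → TT = TT') ∧
  (∀ (T : ℝ → G →L[ℂ] G') (TT : DI G →L[ℂ] DI G') (C : ℝ), ContinuousOn T (Ioo 0 1) →
    (∀ θ ∈ Ioo (0 : ℝ) 1, ‖T θ‖ ≤ C) → IsDI T TT → IsDI (fun θ => (T θ).adjoint) TT.adjoint) ∧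
  (IsDI (fun _ => (1 : G →L[ℂ] G)) (1 : DI G →L[ℂ] DI G))

/-- **DISP.** Proof. For polynomials `p`, `p(𝔸)` is the direct integral of the `p(A θ)`; by Weierstrass
on `[-C, C]` the same holds for continuous `f`: `∫ f dν_F = ∫_0^1 ⟨F θ, cfc f (A θ) (F θ)⟩ dθ`. Take
`f_n ↓ 1_B` continuous (`f_n(t) = max(0, 1 - n d(t,B))`); for a.e. `θ` the integrand tends to
`ν_{A θ, F θ}(B) = 0` and is bounded by `‖F θ‖²`: dominated convergence. -/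
def S_DISP : Prop := ∀ (G : Type) [NormedAddCommGroup G] [InnerProductSpace ℂ G] [CompleteSpace G]
  (A : ℝ → G →L[ℂ] G) (AA : DI G →L[ℂ] DI G) (C : ℝ) (B : Set ℝ), ContinuousOn A (Ioo 0 1) →
  (∀ θ ∈ Ioo (0 : ℝ) 1, IsSelfAdjoint (A θ) ∧ ‖A θ‖ ≤ C) → IsDI A AA → IsCompact B →
  (∀ᵐ θ ∂m01, ∀ (v : G) (ν : Measure ℝ), SpM (A θ) v ν → ν B = 0) →
  ∀ (F : DI G) (ν : Measure ℝ), SpM AA F ν → ν B = 0

end Pool.Agent.H773.LK
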